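import Pool.Agent.MP_d32a63_an.H23.Thr

/-! The family of edges and gaps; it does not cross itself. -/

namespace Pool.Agent.MP_d32a63_an.H23

open Set Polynomial Pool.Agent.MP_d32a63_an.H95

/-- Tree edges, link edges, link gaps, thread edges, thread gaps. -/
inductive Ob (τ : Type) where
  | ce (Q : ℤ × ℤ) (ν : ℕ × ℕ) (α β : ℤ) : Ob τ
  | le (Q : ℤ × ℤ) (α β : ℤ) (ν ν' : ℕ × ℕ) : Ob τ
  | lg (Q : ℤ × ℤ) (α β : ℤ) (ν ν' : ℕ × ℕ) : Ob τ
  | te (t : τ) (b : ℤ) : Ob τ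
  | tg (t : τ) : Ob τ

/-- Edges, as opposed to gaps. -/
def Ob.isE {τ : Type} : Ob τ → Prop
  | .ce .. => True
  | .le .. => True
  | .lg .. => False
  | .te .. => True
  | .tg .. => False

lemma vsub {x u v w : ℝ} (h : (u < v ∧ v ≤ w) ∨ (w ≤ v ∧ v < u)) :
    (⟨x, u⟩ : ℂ) ≠ ⟨x, v⟩ ∧ segment ℝ (⟨x, u⟩ : ℂ) ⟨x, v⟩ ⊆ segment ℝ (⟨x, u⟩ : ℂ) ⟨x, w⟩ ∧
      openSegment ℝ (⟨x, u⟩ : ℂ) ⟨x, v⟩ ⊆ openSegment ℝ (⟨x, u⟩ : ℂ) ⟨x, w⟩ := by
  have n1 : u ≠ v := by rcases h with h | h <;> intro e <;> linarith [h.1, h.2]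
  have n2 : u ≠ w := by rcases h with h | h <;> intro e <;> linarith [h.1, h.2]
  refine ⟨fun e => n1 (congrArg Complex.im e), fun z hz => ?_, fun z hz => ?_⟩
  · rw [mem_vseg] at hz ⊢
    obtain ⟨a, b, c⟩ := hz
    rcases h with h | h
    · rw [min_eq_left h.1.le] at b; rw [max_eq_right h.1.le] at c
      exact ⟨a, (min_le_left _ _).trans b, c.trans (h.2.trans (le_max_right _ _))⟩
    · rw [min_eq_right h.2.le] at b; rw [max_eq_left h.2.le] at c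
      exact ⟨a, (min_le_right _ _).trans (h.1.trans b), c.trans (le_max_left _ _)⟩
  · rw [mem_vopen n1] at hz
    rw [mem_vopen n2]
    obtain ⟨a, b, c⟩ := hz
    rcases h with h | h
    · rw [min_eq_left h.1.le] at b; rw [max_eq_right h.1.le] at c
      exact ⟨a, (min_le_left _ _).trans_lt b, c.trans_le (h.2.trans (le_max_right _ _))⟩
    · rw [min_eq_right h.2.le] at b; rw [max_eq_left h.2.le] at c
      exact ⟨a, (min_le_right _ _).trans_lt (h.1.trans_lt b), c.trans_le (le_max_left _ _)⟩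

lemma vsub2 {x u v y y' : ℝ} (n : u ≠ v) (n' : y ≠ y') (h1 : min y y' ≤ u) (h2 : u ≤ max y y')
    (h3 : min y y' ≤ v) (h4 : v ≤ max y y') :
    segment ℝ (⟨x, u⟩ : ℂ) ⟨x, v⟩ ⊆ segment ℝ (⟨x, y⟩ : ℂ) ⟨x, y'⟩ ∧
      openSegment ℝ (⟨x, u⟩ : ℂ) ⟨x, v⟩ ⊆ openSegment ℝ (⟨x, y⟩ : ℂ) ⟨x, y'⟩ := by
  refine ⟨fun z hz => ?_, fun z hz => ?_⟩
  · rw [mem_vseg] at hz ⊢
    exact ⟨hz.1, (le_min h1 h3).trans hz.2.1, hz.2.2.trans (max_le h2 h4)⟩
  · rw [mem_vopen n] at hz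
    rw [mem_vopen n']
    exact ⟨hz.1, (le_min h1 h3).trans_lt hz.2.1, hz.2.2.trans_le (max_le h2 h4)⟩

lemma adj_ne {α β α' β' : ℤ} (h : Adj α β α' β') : ((α, β) : ℤ × ℤ) ≠ (α', β') := by
  intro e
  rw [Prod.mk.injEq] at e
  unfold Adj at h; omega

namespace GridData

variable {n : ℕ} {s : Core n} {κ l Λ σ : ℝ} {N lo hi : ℕ} {τ : Type}
  (D : GridData s κ l Λ σ N lo hi τ) (A : ℕ) (θ : ℝ)

/-- The parent of a tree vertex, in local coordinates. -/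
noncomputable def par (Q : ℤ × ℤ) (ν : ℕ × ℕ) (α β : ℤ) : ℤ × ℤ :=
  Classical.epsilon fun w : ℤ × ℤ =>
    ∃ t, D.CV A Q ν α β t ∧ D.CV A Q ν w.1 w.2 (t - 1) ∧ Adj α β w.1 w.2

/-- The objects in use. -/
def mem : Ob τ → Prop
  | .ce Q ν α β => ∃ t, 0 < t ∧ D.CV A Q ν α β t
  | .le Q α β ν ν' => D.LV A Q α β ν ν'
  | .lg Q α β ν ν' => D.LV A Q α β ν ν'
  | .te t b => D.TV A θ t b
  | .tg t => t ∈ D.Th ∧ D.gap t

/-- The new end of an object. -/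
noncomputable def hd : Ob τ → ℤ × ℤ
  | .ce Q _ α β => gl A (BB N) Q α β
  | .le Q α β _ _ => gl A (BB N) Q α β
  | .lg Q α β _ _ => gl A (BB N) Q α β
  | .te t b => (D.I t * A, b)
  | .tg t => (D.I t * A, D.last A θ t)

/-- The other end of the unit segment that carries an object. -/
noncomputable def tl : Ob τ → ℤ × ℤ
  | .ce Q ν α β => gl A (BB N) Q (D.par A Q ν α β).1 (D.par A Q ν α β).2
  | .le Q α β _ _ => gl A (BB N) Q α (β - 1)
  | .lg Q α β _ _ => gl A (BB N) Q α (β + 1)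
  | .te t b => (D.I t * A, b - D.dir t)
  | .tg t => (D.I t * A, D.last A θ t + D.dir t)

/-- The far end of an object. -/
noncomputable def fr : Ob τ → ℂ
  | .ce Q ν α β => D.ps A θ (gl A (BB N) Q (D.par A Q ν α β).1 (D.par A Q ν α β).2)
  | .le Q α β _ _ => D.ps A θ (gl A (BB N) Q α (β - 1))
  | .lg Q α β _ _ => D.ps A θ (gl A (BB N) Q α (β + 1))
  | .te t b => ⟨D.I t * l, D.lowY A θ t b⟩
  | .tg t => ⟨D.I t * l, D.y1 t⟩

/-- The label at the new end. -/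
noncomputable def labH : Ob τ → ℂ[X]
  | .ce Q ν _ _ => D.T Q ν
  | .le Q _ _ _ ν' => D.T Q ν'
  | .lg Q _ _ _ ν' => D.T Q ν'
  | .te t b => D.tlab t b
  | .tg t => D.P t

open Classical in
/-- The label at the far end. -/
noncomputable def labF : Ob τ → ℂ[X]
  | .ce Q ν _ _ => D.T Q ν
  | .le Q _ _ ν _ => D.T Q ν
  | .lg Q _ _ _ ν' => D.T Q ν'
  | .te t b => if D.TV A θ t (b - D.dir t) then D.tlab t (b - D.dir t) else D.P t
  | .tg t => D.P t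

variable {D A θ}

lemma par_spec (o : Ok l Λ σ N lo hi A θ) {Q : ℤ × ℤ} {ν : ℕ × ℕ} {α β t : ℤ}
    (h : D.CV A Q ν α β t) (ht : 0 < t) :
    D.CV A Q ν (D.par A Q ν α β).1 (D.par A Q ν α β).2 (t - 1) ∧
      Adj α β (D.par A Q ν α β).1 (D.par A Q ν α β).2 := by
  have hA := o.hA
  obtain ⟨α', β', a, b⟩ := on_step (by omega) (kok h.2.1) h.2.2 ht
  obtain ⟨t', c1, c2, c3⟩ := Classical.epsilon_spec (p := fun w : ℤ × ℤ =>
    ∃ t, D.CV A Q ν α β t ∧ D.CV A Q ν w.1 w.2 (t - 1) ∧ Adj α β w.1 w.2)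
    ⟨(α', β'), t, h, ⟨h.1, h.2.1, a⟩, b⟩
  obtain ⟨-, rfl⟩ := cv_same o h c1
  exact ⟨c2, c3⟩

lemma car (o : Ok l Λ σ N lo hi A θ) {x : Ob τ} (h : D.mem A θ x) :
    Adj (D.hd A θ x).1 (D.hd A θ x).2 (D.tl A θ x).1 (D.tl A θ x).2 ∧
    D.ps A θ (D.hd A θ x) ≠ D.fr A θ x ∧
    segment ℝ (D.ps A θ (D.hd A θ x)) (D.fr A θ x) ⊆
      segment ℝ (D.ps A θ (D.hd A θ x)) (D.ps A θ (D.tl A θ x)) ∧
    openSegment ℝ (D.ps A θ (D.hd A θ x)) (D.fr A θ x) ⊆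
      openSegment ℝ (D.ps A θ (D.hd A θ x)) (D.ps A θ (D.tl A θ x)) := by
  cases x with
  | ce Q ν α β =>
    obtain ⟨t, ht, h⟩ := h
    have a := gl_adj (A := A) (B := BB N) Q (par_spec o h ht).2
    exact ⟨a, fun e => adj_ne a (ps_inj o e), Subset.rfl, Subset.rfl⟩
  | le Q α β ν ν' =>
    have a := gl_adj (A := A) (B := BB N) Q (show Adj α β α (β - 1) by unfold Adj; omega)
    exact ⟨a, fun e => adj_ne a (ps_inj o e), Subset.rfl, Subset.rfl⟩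
  | lg Q α β ν ν' =>
    have a := gl_adj (A := A) (B := BB N) Q (show Adj α β α (β + 1) by unfold Adj; omega)
    exact ⟨a, fun e => adj_ne a (ps_inj o e), Subset.rfl, Subset.rfl⟩
  | te t b =>
    simp only [hd, tl, fr, ps_wall o]
    rcases low_between o h with r | r
    · exact ⟨by unfold Adj; omega, vsub (Or.inr ⟨r.2.1, r.2.2.1⟩)⟩
    · exact ⟨by unfold Adj; omega, vsub (Or.inl ⟨r.2.2.1, r.2.1⟩)⟩
  | tg t =>
    simp only [hd, tl, fr, ps_wall o]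
    rcases last_between o h.1 with r | r
    · exact ⟨by unfold Adj; omega, vsub (Or.inl ⟨r.2.2.1, r.2.2.2⟩)⟩
    · exact ⟨by unfold Adj; omega, vsub (Or.inr ⟨r.2.2.2, r.2.2.1⟩)⟩

lemma te_sub (o : Ok l Λ σ N lo hi A θ) {t : τ} {b : ℤ} (h : D.TV A θ t b) :
    segment ℝ (D.ps A θ (D.hd A θ (.te t b))) (D.fr A θ (.te t b)) ⊆
      segment ℝ (⟨D.I t * l, D.y0 t⟩ : ℂ) ⟨D.I t * l, D.y1 t⟩ ∧
    openSegment ℝ (D.ps A θ (D.hd A θ (.te t b))) (D.fr A θ (.te t b)) ⊆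
      openSegment ℝ (⟨D.I t * l, D.y0 t⟩ : ℂ) ⟨D.I t * l, D.y1 t⟩ := by
  simp only [hd, fr, ps_wall o]
  rcases low_between o h with r | r
  · exact vsub2 r.2.2.1.ne' (y_ne o h.1) h.2.1.le h.2.2.le ((min_le_left _ _).trans r.2.2.2.1)
      (r.2.2.1.le.trans h.2.2.le)
  · exact vsub2 r.2.2.1.ne (y_ne o h.1) h.2.1.le h.2.2.le (h.2.1.le.trans r.2.2.1.le)
      (r.2.2.2.1.trans (le_max_left _ _))

lemma tg_sub (o : Ok l Λ σ N lo hi A θ) {t : τ} (h : t ∈ D.Th) :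
    segment ℝ (D.ps A θ (D.hd A θ (.tg t))) (D.fr A θ (.tg t)) ⊆
      segment ℝ (⟨D.I t * l, D.y0 t⟩ : ℂ) ⟨D.I t * l, D.y1 t⟩ ∧
    openSegment ℝ (D.ps A θ (D.hd A θ (.tg t))) (D.fr A θ (.tg t)) ⊆
      openSegment ℝ (⟨D.I t * l, D.y0 t⟩ : ℂ) ⟨D.I t * l, D.y1 t⟩ := by
  simp only [hd, fr, ps_wall o]
  have u := (last_spec o h).1
  refine vsub2 ?_ (y_ne o h) u.2.1.le u.2.2.le (min_le_right _ _) (le_max_right _ _)
  rcases last_between o h with r | r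
  · exact r.2.2.1.ne
  · exact r.2.2.1.ne'

/-- Cell objects: the new end is interior. -/
lemma hd_ce (o : Ok l Λ σ N lo hi A θ) {Q : ℤ × ℤ} {ν : ℕ × ℕ} {α β : ℤ}
    (h : D.mem A θ (.ce Q ν α β)) (I : ℤ) : (gl A (BB N) Q α β).1 ≠ I * A := by
  obtain ⟨t, ht, h⟩ := h
  have := (cv_box o h).2.2.2.2.2.2 ht
  exact gl_not_wall this.1 this.2.1

lemma hd_lv (o : Ok l Λ σ N lo hi A θ) {Q : ℤ × ℤ} {ν ν' : ℕ × ℕ} {α β : ℤ}
    (h : D.LV A Q α β ν ν') (β' I : ℤ) : (gl A (BB N) Q α β').1 ≠ I * A :=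
  gl_not_wall (lv_box o h).2.1 (lv_box o h).2.2.1

lemma same_car (o : Ok l Λ σ N lo hi A θ) {x y : Ob τ} (hx : D.mem A θ x) (hy : D.mem A θ y)
    (e1 : D.hd A θ y = D.hd A θ x) (e2 : D.tl A θ y = D.tl A θ x) : x = y := by
  cases x with
  | ce Q ν α β =>
    cases y with
    | ce Q' ν' α' β' =>
      obtain ⟨t, ht, h⟩ := hx
      obtain ⟨t', ht', h'⟩ := hy
      obtain ⟨rfl, rfl, rfl, rfl⟩ := (cv_unique o h h' e1.symm).2.2 ht
      rfl
    | le Q' α' β' μ μ' => obtain ⟨t, ht, h⟩ := hx; exact (lv_not_cv o hy h e1).elim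
    | lg Q' α' β' μ μ' => obtain ⟨t, ht, h⟩ := hx; exact (lv_not_cv o hy h e1).elim
    | te t b => exact (hd_ce o hx _ (congrArg Prod.fst e1).symm).elim
    | tg t => exact (hd_ce o hx _ (congrArg Prod.fst e1).symm).elim
  | le Q α β ν ν' =>
    cases y with
    | ce Q' ν' α' β' => obtain ⟨t, ht, h⟩ := hy; exact (lv_not_cv o hx h e1.symm).elim
    | le Q' α' β' μ μ' =>
      obtain ⟨rfl, rfl, rfl, rfl, rfl⟩ := lv_unique o hx hy e1.symm
      rfl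
    | lg Q' α' β' μ μ' =>
      obtain ⟨rfl, rfl, rfl, rfl, rfl⟩ := lv_unique o hx hy e1.symm
      have := (gl_same e2).2
      omega
    | te t b => exact (hd_lv o hx _ _ (congrArg Prod.fst e1).symm).elim
    | tg t => exact (hd_lv o hx _ _ (congrArg Prod.fst e1).symm).elim
  | lg Q α β ν ν' =>
    cases y with
    | ce Q' ν' α' β' => obtain ⟨t, ht, h⟩ := hy; exact (lv_not_cv o hx h e1.symm).elim
    | le Q' α' β' μ μ' =>
      obtain ⟨rfl, rfl, rfl, rfl, rfl⟩ := lv_unique o hx hy e1.symm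
      have := (gl_same e2).2
      omega
    | lg Q' α' β' μ μ' =>
      obtain ⟨rfl, rfl, rfl, rfl, rfl⟩ := lv_unique o hx hy e1.symm
      rfl
    | te t b => exact (hd_lv o hx _ _ (congrArg Prod.fst e1).symm).elim
    | tg t => exact (hd_lv o hx _ _ (congrArg Prod.fst e1).symm).elim
  | te t b =>
    cases y with
    | ce Q' ν' α' β' => exact (hd_ce o hy _ (congrArg Prod.fst e1)).elim
    | le Q' α' β' μ μ' => exact (hd_lv o hy _ _ (congrArg Prod.fst e1)).elim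
    | lg Q' α' β' μ μ' => exact (hd_lv o hy _ _ (congrArg Prod.fst e1)).elim
    | te t' b' =>
      obtain ⟨rfl, rfl⟩ := tv_unique o hx hy e1.symm
      rfl
    | tg t' =>
      obtain ⟨rfl, rfl⟩ := tv_unique o hx (last_spec o hy.1).1 e1.symm
      have := congrArg Prod.snd e2
      simp only [tl] at this
      rcases dir_cases o hy.1 with r | r <;> omega
  | tg t =>
    cases y with
    | ce Q' ν' α' β' => exact (hd_ce o hy _ (congrArg Prod.fst e1)).elim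
    | le Q' α' β' μ μ' => exact (hd_lv o hy _ _ (congrArg Prod.fst e1)).elim
    | lg Q' α' β' μ μ' => exact (hd_lv o hy _ _ (congrArg Prod.fst e1)).elim
    | te t' b' =>
      obtain ⟨rfl, rfl⟩ := tv_unique o hy (last_spec o hx.1).1 e1
      have := congrArg Prod.snd e2
      simp only [tl] at this
      rcases dir_cases o hx.1 with r | r <;> omega
    | tg t' =>
      obtain ⟨rfl, -⟩ := tv_unique o (last_spec o hx.1).1 (last_spec o hy.1).1 e1.symm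
      rfl

/-- The far vertex of a cell object is a tree vertex. -/
lemma tl_cv (o : Ok l Λ σ N lo hi A θ) {x : Ob τ} (hx : D.mem A θ x) :
    (∃ I : ℤ, (D.hd A θ x).1 = I * A ∧ (D.tl A θ x).1 = I * A) ∨
    ∃ Q ν α β t, D.CV A Q ν α β t ∧ D.tl A θ x = gl A (BB N) Q α β := by
  cases x with
  | ce Q ν α β => obtain ⟨t, ht, h⟩ := hx; exact Or.inr ⟨_, _, _, _, _, (par_spec o h ht).1, rfl⟩
  | le Q α β ν ν' => obtain ⟨t, h⟩ := hx.2.2.2.1; exact Or.inr ⟨_, _, _, _, _, h, rfl⟩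
  | lg Q α β ν ν' => obtain ⟨t, h⟩ := hx.2.2.2.2; exact Or.inr ⟨_, _, _, _, _, h, rfl⟩
  | te t b => exact Or.inl ⟨_, rfl, rfl⟩
  | tg t => exact Or.inl ⟨_, rfl, rfl⟩

lemma lv_not_tl (o : Ok l Λ σ N lo hi A θ) {x : Ob τ} (hx : D.mem A θ x) {Q : ℤ × ℤ}
    {ν ν' : ℕ × ℕ} {α β : ℤ} (h : D.LV A Q α β ν ν') : gl A (BB N) Q α β ≠ D.tl A θ x := by
  intro e
  rcases tl_cv o hx with ⟨I, -, r⟩ | ⟨Q', μ, α', β', t, r1, r2⟩
  · exact hd_lv o h _ I (by rw [e]; exact r)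
  · exact lv_not_cv o h r1 (e.trans r2)

lemma thr_disj {t t' : τ} (h : t ∈ D.Th) (h' : t' ∈ D.Th) {z : ℂ}
    (a : z ∈ openSegment ℝ (⟨D.I t * l, D.y0 t⟩ : ℂ) ⟨D.I t * l, D.y1 t⟩)
    (b : z ∈ segment ℝ (⟨D.I t' * l, D.y0 t'⟩ : ℂ) ⟨D.I t' * l, D.y1 t'⟩) : t = t' := by
  by_contra ne
  exact Set.disjoint_left.1 (D.disj t h t' h' ne) a b

lemma nc_all (o : Ok l Λ σ N lo hi A θ) {x y : Ob τ} (hx : D.mem A θ x) (hy : D.mem A θ y)
    (ne : x ≠ y) : Disjoint (openSegment ℝ (D.ps A θ (D.hd A θ x)) (D.fr A θ x))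
      (segment ℝ (D.ps A θ (D.hd A θ y)) (D.fr A θ y)) := by
  refine Set.disjoint_left.2 fun z hz hz' => ?_
  obtain ⟨a1, -, -, a4⟩ := car o hx
  obtain ⟨b1, -, b3, -⟩ := car o hy
  rcases nc (rho_pos o) (Y_mono o) a1 b1 (a4 hz) (b3 hz') with ⟨e1, e2⟩ | ⟨e1, e2⟩
  · exact ne (same_car o hx hy e1 e2)
  cases x with
  | ce Q ν α β =>
    cases y with
    | ce Q' ν' α' β' =>
      obtain ⟨t, ht, h⟩ := hx
      obtain ⟨t', ht', h'⟩ := hy
      have u1 := (cv_unique o h' (par_spec o h ht).1 e1).1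
      have u2 := (cv_unique o (par_spec o h' ht').1 h e2).1
      omega
    | le Q' α' β' μ μ' => exact lv_not_tl o hx hy e1
    | lg Q' α' β' μ μ' => exact lv_not_tl o hx hy e1
    | te t b => exact hd_ce o hx _ (congrArg Prod.fst e2).symm
    | tg t => exact hd_ce o hx _ (congrArg Prod.fst e2).symm
  | le Q α β ν ν' => exact lv_not_tl o hy hx e2.symm
  | lg Q α β ν ν' => exact lv_not_tl o hy hx e2.symm
  | te t b =>
    cases y with
    | ce Q' ν' α' β' => exact hd_ce o hy _ (congrArg Prod.fst e1)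
    | le Q' α' β' μ μ' => exact lv_not_tl o hx hy e1
    | lg Q' α' β' μ μ' => exact lv_not_tl o hx hy e1
    | te t' b' =>
      obtain rfl := thr_disj hx.1 hy.1 ((te_sub o hx).2 hz) ((te_sub o hy).1 hz')
      have u1 := congrArg Prod.snd e1
      have u2 := congrArg Prod.snd e2
      simp only [hd, tl] at u1 u2
      rcases dir_cases o hx.1 with r | r <;> omega
    | tg t' =>
      obtain rfl := thr_disj hx.1 hy.1 ((te_sub o hx).2 hz) ((tg_sub o hy.1).1 hz')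
      have u2 := congrArg Prod.snd e2
      simp only [hd, tl] at u2
      exact (last_spec o hx.1).2 (by rw [u2]; exact hx)
  | tg t =>
    cases y with
    | ce Q' ν' α' β' => exact hd_ce o hy _ (congrArg Prod.fst e1)
    | le Q' α' β' μ μ' => exact lv_not_tl o hx hy e1
    | lg Q' α' β' μ μ' => exact lv_not_tl o hx hy e1
    | te t' b' =>
      obtain rfl := thr_disj hx.1 hy.1 ((tg_sub o hx.1).2 hz) ((te_sub o hy).1 hz')
      have u1 := congrArg Prod.snd e1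
      simp only [hd, tl] at u1
      exact (last_spec o hx.1).2 (by rw [← u1]; exact hy)
    | tg t' =>
      obtain rfl := thr_disj hx.1 hy.1 ((tg_sub o hx.1).2 hz) ((tg_sub o hy.1).1 hz')
      exact ne rfl

lemma mem_finite (o : Ok l Λ σ N lo hi A θ) : {x | D.mem A θ x}.Finite := by
  have fN : {ν : ℕ × ℕ | ν.1 + ν.2 ≤ N}.Finite :=
    ((Set.finite_Iic N).prod (Set.finite_Iic N)).subset fun ν h => by
      have h : ν.1 + ν.2 ≤ N := h
      simp only [mem_prod, mem_Iic]; omega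
  have fB := (Set.finite_Icc (0 : ℤ) A).prod (Set.finite_Icc (0 : ℤ) (BB N))
  have fA := D.Act.finite_toSet
  have f1 := ((fA.prod fN).prod fB).image
    (fun p => (Ob.ce p.1.1 p.1.2 p.2.1 p.2.2 : Ob τ))
  have f2 := (((fA.prod fN).prod fN).prod fB).image
    (fun p => (Ob.le p.1.1.1 p.2.1 p.2.2 p.1.1.2 p.1.2 : Ob τ))
  have f3 := (((fA.prod fN).prod fN).prod fB).image
    (fun p => (Ob.lg p.1.1.1 p.2.1 p.2.2 p.1.1.2 p.1.2 : Ob τ))
  have f4 := D.Th.finite_toSet.biUnion (t := fun t => (fun b => (Ob.te t b : Ob τ)) ''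
    {b | D.TV A θ t b}) fun t _ => (tv_finite o t).image _
  have f5 := D.Th.finite_toSet.image (fun t => (Ob.tg t : Ob τ))
  refine ((((f1.union f2).union f3).union f4).union f5).subset fun x hx => ?_
  cases x with
  | ce Q ν α β =>
    obtain ⟨t, ht, h⟩ := hx
    have b := cv_box o h
    exact Or.inl (Or.inl (Or.inl (Or.inl ⟨((Q, ν), (α, β)),
      ⟨⟨h.1, h.2.1⟩, ⟨b.1, b.2.1⟩, ⟨b.2.2.1, by simp only; omega⟩⟩, rfl⟩)))
  | le Q α β ν ν' =>
    have b := lv_box o hx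
    obtain ⟨-, -, -, ⟨t, p⟩, ⟨t', p'⟩⟩ := hx
    exact Or.inl (Or.inl (Or.inl (Or.inr ⟨(((Q, ν), ν'), (α, β)),
      ⟨⟨⟨b.1, p.2.1⟩, p'.2.1⟩, ⟨by simp only; omega, by simp only; omega⟩,
        ⟨by simp only; omega, by simp only; omega⟩⟩, rfl⟩)))
  | lg Q α β ν ν' =>
    have b := lv_box o hx
    obtain ⟨-, -, -, ⟨t, p⟩, ⟨t', p'⟩⟩ := hx
    exact Or.inl (Or.inl (Or.inr ⟨(((Q, ν), ν'), (α, β)),
      ⟨⟨⟨b.1, p.2.1⟩, p'.2.1⟩, ⟨by simp only; omega, by simp only; omega⟩,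
        ⟨by simp only; omega, by simp only; omega⟩⟩, rfl⟩))
  | te t b => exact Or.inl (Or.inr (Set.mem_biUnion (x := t) hx.1 ⟨b, hx, rfl⟩))
  | tg t => exact Or.inr ⟨t, hx.1, rfl⟩

end GridData

end Pool.Agent.MP_d32a63_an.H23
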