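import Pool.Agent.MP_d32a63_an.H95.Defs

/-! The planar realisation of the cell gadgets: statement. -/

namespace Pool.Agent.MP_d32a63_an.H23

open Set Polynomial Pool.Agent.MP_d32a63_an.H95

/-- The closed square of the cell `Q` of side `l`. -/
def sq (l : ℝ) (Q : ℤ × ℤ) : Set ℂ :=
  {z | Q.1 * l ≤ z.re ∧ z.re ≤ (Q.1 + 1) * l ∧ Q.2 * l ≤ z.im ∧ z.im ≤ (Q.2 + 1) * l}

/-- The centre of the cell `Q`. -/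
noncomputable def ctr (l : ℝ) (Q : ℤ × ℤ) : ℂ := ⟨(Q.1 + 1 / 2) * l, (Q.2 + 1 / 2) * l⟩

/-- The closed vertical wall at abscissa `I * l` in row `j`. -/
def wall (l : ℝ) (I j : ℤ) : Set ℂ := {z | z.re = I * l ∧ j * l ≤ z.im ∧ z.im ≤ (j + 1) * l}

/-- Lattice neighbours. The node `(X, k)` is `m2 = X`, `m1 = k`, `m0 = N - X - k`. -/
def Nb (N : ℕ) (ν ν' : ℕ × ℕ) : Prop :=
  ν.1 + ν.2 ≤ N ∧ ν'.1 + ν'.2 ≤ N ∧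
    (ν' = (ν.1, ν.2 + 1) ∨ ν' = (ν.1 + 1, ν.2) ∨ (ν'.1 + 1 = ν.1 ∧ ν'.2 = ν.2 + 1))

/-- Input of the realisation: active cells with node labels, row profiles, shared side nodes,
and threads (old gaps and probes) on the walls `re = I t * l`, from ordinate `y0 t` to `y1 t`. -/
structure GridData {n : ℕ} (s : Core n) (κ l Λ σ : ℝ) (N lo hi : ℕ) (τ : Type) where
  Act : Finset (ℤ × ℤ)
  T : ℤ × ℤ → ℕ × ℕ → ℂ[X]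
  h : ℤ → ℝ → ℝ
  /-- the node `(X, N - X)` of `(i, j)` is shared with the node `(N - X, 0)` of `(i + 1, j)` -/
  shR : ℤ × ℤ → ℕ → Prop
  /-- the node `(0, k)` of `(i, j)`, `i + j` even, is shared with `(0, k)` of `(i, j + 1)` -/
  shV : ℤ × ℤ → ℕ → Prop
  Th : Finset τ
  I : τ → ℤ
  y0 : τ → ℝ
  y1 : τ → ℝ
  P : τ → ℂ[X]
  gap : τ → Prop
  St : τ → Finset ℤ
  c : τ → ℝ
  act : ∀ Q ∈ Act, Disjoint (sq l Q) (closure s.W)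
  lab : ∀ Q ∈ Act, ∀ ν : ℕ × ℕ, ν.1 + ν.2 ≤ N → ∀ j ≤ n, ∀ z ∈ sq l Q,
    ‖jet (T Q ν) j z - s.F j z‖ ≤ κ / 2
  hlip : ∀ j x x', |h j x - h j x'| ≤ Λ * |x - x'|
  hmid : ∀ (j : ℤ) x, |h j x - (j + 1 / 2) * l| ≤ l / 3
  hR : ∀ i j X, shR (i, j) X → (i, j) ∈ Act ∧ (i + 1, j) ∈ Act ∧ 1 ≤ X ∧ X < N ∧
    T (i, j) (X, N - X) = T (i + 1, j) (N - X, 0)
  hV : ∀ i j k, shV (i, j) k → Even (i + j) ∧ (i, j) ∈ Act ∧ (i, j + 1) ∈ Act ∧ 1 ≤ k ∧ k < N ∧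
    T (i, j) (0, k) = T (i, j + 1) (0, k)
  len : ∀ t ∈ Th, 2 * l ≤ |y1 t - y0 t|
  start : ∀ t ∈ Th, (⟨I t * l, y0 t⟩ : ℂ) ∈ closure s.W ∧
    ∀ j ≤ n, jet (P t) j ⟨I t * l, y0 t⟩ = s.F j ⟨I t * l, y0 t⟩
  free : ∀ t ∈ Th,
    Disjoint (openSegment ℝ (⟨I t * l, y0 t⟩ : ℂ) ⟨I t * l, y1 t⟩) (closure s.W)
  disj : ∀ t ∈ Th, ∀ t' ∈ Th, t ≠ t' →
    Disjoint (openSegment ℝ (⟨I t * l, y0 t⟩ : ℂ) ⟨I t * l, y1 t⟩)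
      (segment ℝ (⟨I t' * l, y0 t'⟩ : ℂ) ⟨I t' * l, y1 t'⟩)
  near : ∀ t ∈ Th, ∀ j ≤ n, ∀ z ∈ segment ℝ (⟨I t * l, y0 t⟩ : ℂ) ⟨I t * l, y1 t⟩,
    ‖jet (P t) j z - s.F j z‖ ≤ κ / 2
  stop : ∀ t ∈ Th, gap t → (⟨I t * l, y1 t⟩ : ℂ) ∈ closure s.W ∧
    ∀ j ≤ n, jet (P t) j ⟨I t * l, y1 t⟩ = s.F j ⟨I t * l, y1 t⟩
  /-- an arm on a wall that meets a thread lies in a station row and in the window -/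
  cross : ∀ t ∈ Th, ∀ j X, shR (I t - 1, j) X →
    (wall l (I t) j ∩ openSegment ℝ (⟨I t * l, y0 t⟩ : ℂ) ⟨I t * l, y1 t⟩).Nonempty →
    j ∈ St t ∧ lo ≤ X ∧ X ≤ hi
  station : ∀ t ∈ Th, ∀ j ∈ St t, (I t - 1, j) ∈ Act ∧ ∀ z ∈ wall l (I t) j,
    (∀ X, shR (I t - 1, j) X → ‖(T (I t - 1, j) (X, N - X) - P t).eval z‖ ≤ c t) ∧
    (∀ X X', shR (I t - 1, j) X → shR (I t - 1, j) X' → X ≤ X' →
      ‖(T (I t - 1, j) (X', N - X') - T (I t - 1, j) (X, N - X)).eval z‖ ≤ σ * ((X' : ℝ) - X))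
  cpos : ∀ t ∈ Th, 0 < c t
  win : ∀ t ∈ Th, (St t).Nonempty → σ * ((hi : ℝ) - lo) ≤ c t

/-- Realisation of the grid data. `a g`, `b g`, `R g` are the new gaps, `r Q ν` is a point of the
strand of the node `ν` of the cell `Q`. -/
def GridStmt (n : ℕ) (C : ℝ) : Prop :=
  ∀ (s : Core n) (κ l Λ σ : ℝ) (N lo hi : ℕ) (τ : Type) (D : GridData s κ l Λ σ N lo hi τ),
    0 < κ → 0 < l → l ≤ 1 → 0 ≤ Λ → 0 ≤ σ → 1 ≤ lo → lo ≤ hi → hi < N →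
    ∃ (s' : Core n) (γ : Type) (Γ : Finset γ) (a b : γ → ℂ) (R : γ → ℂ[X]) (A : ℕ)
      (r : ℤ × ℤ → ℕ × ℕ → ℂ),
      s.W ⊆ s'.W ∧ (∀ j ≤ n, ∀ z ∈ closure s.W, s'.F j z = s.F j z) ∧
      (∀ j ≤ n, ∀ z, ‖s'.F j z - s.F j z‖ ≤ κ) ∧ 0 < A ∧
      (∀ g ∈ Γ, a g ≠ b g ∧ a g ∈ closure s'.W ∧ b g ∈ closure s'.W ∧
        Disjoint (openSegment ℝ (a g) (b g)) (closure s'.W) ∧
        (∀ j ≤ n, ∀ z ∈ segment ℝ (a g) (b g), s'.F j z = jet (R g) j z) ∧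
        ∃ k : ℤ, (a g).re = k * (l / A) ∧ (b g).re = k * (l / A)) ∧
      (∀ g ∈ Γ, ∀ g' ∈ Γ, g ≠ g' →
        Disjoint (openSegment ℝ (a g) (b g)) (segment ℝ (a g') (b g'))) ∧
      (∀ Q ∈ D.Act, ∀ ν : ℕ × ℕ, ν.1 + ν.2 ≤ N → r Q ν ∈ closure s'.W ∧ r Q ν ∈ sq l Q) ∧
      (∀ i j X, D.shR (i, j) X → r (i, j) (X, N - X) = r (i + 1, j) (N - X, 0)) ∧
      (∀ i j k, D.shV (i, j) k → r (i, j) (0, k) = r (i, j + 1) (0, k)) ∧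
      (∀ t ∈ D.Th, D.gap t → ∃ g ∈ Γ, b g = ⟨D.I t * l, D.y1 t⟩ ∧ ‖a g - b g‖ ≤ l ∧
        ∀ G, Sec n s'.W G → ‖G 0 ⟨D.I t * l, D.y0 t⟩ - G 0 (a g)‖ ≤
          |D.y1 t - D.y0 t| + C * ((3 * (D.St t).card + 1) * D.c t) / κ) ∧
      (∀ t ∈ D.Th, ∀ j X, D.shR (D.I t - 1, j) X →
        wall l (D.I t) j ⊆ openSegment ℝ (⟨D.I t * l, D.y0 t⟩ : ℂ) ⟨D.I t * l, D.y1 t⟩ →
        ∀ G, Sec n s'.W G → ‖G 0 ⟨D.I t * l, D.y0 t⟩ - G 0 (r (D.I t - 1, j) (X, N - X))‖ ≤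
          |D.y1 t - D.y0 t| + C * ((3 * (D.St t).card + 1) * D.c t) / κ) ∧
      ∀ G, Sec n s'.W G → (∀ g ∈ Γ, ‖G 0 (a g) - G 0 (b g)‖ ≤ 4 * ‖a g - b g‖) →
        ∀ Q ∈ D.Act, ∀ ν ν', Nb N ν ν' → ∀ z : ℂ, |z.re - (ctr l Q).re| ≤ l / 3 →
          z.im = D.h Q.2 z.re →
          ‖tay n G (r Q ν) z - tay n G (r Q ν') z‖ ≤
            C * ‖(D.T Q ν' - D.T Q ν).eval z‖ / κ + 2 ^ n * (40 + 20 * Λ) * l ^ n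

end Pool.Agent.MP_d32a63_an.H23
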