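import Pool.Agent.MP_d32a63_an.H23.Geo

/-! Global vertices of the node trees and of the links. -/

namespace Pool.Agent.MP_d32a63_an.H23

open Set Polynomial Pool.Agent.MP_d32a63_an.H95

/-- Conditions on the parameters. -/
structure Ok (l Λ σ : ℝ) (N lo hi A : ℕ) (θ : ℝ) : Prop where
  hl : 0 < l
  hΛ : 0 ≤ Λ
  hσ : 0 ≤ σ
  hlo : 1 ≤ lo
  hlh : lo ≤ hi
  hhi : hi < N
  hA : 6 * N + 18 ≤ A
  hθ : 0 < θ
  hθl : ((BB N : ℤ) : ℝ) * θ ≤ l / 12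
  hθρ : θ ≤ l / A

lemma BB_ge (N : ℕ) : 4 ≤ BB N := by
  have := bb_facts N N le_rfl
  omega

namespace GridData

variable {n : ℕ} {s : Core n} {κ l Λ σ : ℝ} {N lo hi : ℕ} {τ : Type}
  (D : GridData s κ l Λ σ N lo hi τ) (A : ℕ) (θ : ℝ)

/-- Ordinates of the grid. -/
noncomputable def Y : ℤ → ℤ → ℝ := YY l θ (l / A) (BB N) D.h

/-- Position of a grid vertex. -/
noncomputable def ps (v : ℤ × ℤ) : ℂ := pt (l / A) (D.Y A θ) v

/-- The bottom node `(0, k)` of `Q` is shared. -/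
def shD (Q : ℤ × ℤ) (k : ℕ) : Prop :=
  (Even (Q.1 + Q.2) ∧ D.shV (Q.1, Q.2) k) ∨ (¬ Even (Q.1 + Q.2) ∧ D.shV (Q.1, Q.2 - 1) k)

open Classical in
/-- The kind of a node. -/
noncomputable def kd (Q : ℤ × ℤ) (ν : ℕ × ℕ) : ℕ :=
  if ν.1 + ν.2 = N ∧ D.shR (Q.1, Q.2) ν.1 then 1
  else if ν.2 = 0 ∧ D.shR (Q.1 - 1, Q.2) (N - ν.1) then 2
  else if ν.1 = 0 ∧ D.shD Q ν.2 then 3 else 0

/-- Vertex of the tree of the node `ν` of the cell `Q`. -/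
def CV (Q : ℤ × ℤ) (ν : ℕ × ℕ) (α β t : ℤ) : Prop :=
  Q ∈ D.Act ∧ ν.1 + ν.2 ≤ N ∧ On A N (D.kd Q ν) ν.1 ν.2 α β t

/-- Link vertex between the strands `ν` (below) and `ν'` (above). -/
def LV (Q : ℤ × ℤ) (α β : ℤ) (ν ν' : ℕ × ℕ) : Prop :=
  (N : ℤ) + 2 ≤ α ∧ α ≤ A - N - 2 ∧ β % 2 = 0 ∧ (∃ t, D.CV A Q ν α (β - 1) t) ∧
    ∃ t, D.CV A Q ν' α (β + 1) t

/-- The root of the tree, in global coordinates. -/
noncomputable def root (Q : ℤ × ℤ) (ν : ℕ × ℕ) : ℤ × ℤ :=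
  gl A (BB N) Q (rt A N (D.kd Q ν) ν.1 ν.2).1 (rt A N (D.kd Q ν) ν.1 ν.2).2

variable {D A θ}

lemma kd_one {Q : ℤ × ℤ} {ν : ℕ × ℕ} (h : D.kd Q ν = 1) :
    ν.1 + ν.2 = N ∧ D.shR (Q.1, Q.2) ν.1 := by
  unfold kd at h
  split_ifs at h with h1 h2 h3
  · exact h1
  · omega
  · omega

lemma kd_two {Q : ℤ × ℤ} {ν : ℕ × ℕ} (h : D.kd Q ν = 2) :
    ν.2 = 0 ∧ D.shR (Q.1 - 1, Q.2) (N - ν.1) := by
  unfold kd at h
  split_ifs at h with h1 h2 h3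
  · omega
  · exact h2
  · omega

lemma kd_three {Q : ℤ × ℤ} {ν : ℕ × ℕ} (h : D.kd Q ν = 3) : ν.1 = 0 ∧ D.shD Q ν.2 := by
  unfold kd at h
  split_ifs at h with h1 h2 h3
  · omega
  · omega
  · exact h3

lemma kok {Q : ℤ × ℤ} {ν : ℕ × ℕ} (h : ν.1 + ν.2 ≤ N) : Kok N (D.kd Q ν) ν.1 ν.2 := by
  refine ⟨h, ?_, fun e => ?_, fun e => ?_, fun e => ?_⟩
  · unfold kd; split_ifs <;> omega
  · obtain ⟨a, b⟩ := kd_one e
    have := D.hR _ _ _ b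
    omega
  · obtain ⟨a, b⟩ := kd_two e
    have := D.hR _ _ _ b
    omega
  · obtain ⟨a, b | b⟩ := kd_three e
    · have := D.hV _ _ _ b.2
      omega
    · have := D.hV _ _ _ b.2
      omega

lemma gl_R {i j : ℤ} {X : ℕ} (h : X ≤ N) :
    gl A (BB N) (i + 1, j) 0 (bb N (N - X) + MM N) = gl A (BB N) (i, j) A (bb N X) := by
  have e : bb N N = bb N (N - X) + bb N X := by rw [← bb_add]; congr 1; omega
  have p : Even (i + 1 + j) ↔ ¬ Even (i + j) := by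
    rw [show i + 1 + j = (i + j) + 1 by ring, Int.even_add_one]
  simp only [gl, Prod.mk.injEq, p]
  refine ⟨by ring, ?_⟩
  unfold BB
  by_cases q : Even (i + j)
  · rw [if_neg (not_not.2 q), if_pos q]; omega
  · rw [if_pos q, if_neg q]; omega

lemma root_R {i j : ℤ} {X : ℕ} (h : D.shR (i, j) X) :
    D.root A (i, j) (X, N - X) = gl A (BB N) (i, j) A (bb N X) ∧
      D.root A (i + 1, j) (N - X, 0) = gl A (BB N) (i, j) A (bb N X) := by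
  have hr := D.hR _ _ _ h
  have k1 : D.kd (i, j) (X, N - X) = 1 := by
    unfold kd; rw [if_pos ⟨by simp only; omega, h⟩]
  have k2 : D.kd (i + 1, j) (N - X, 0) = 2 := by
    unfold kd
    rw [if_neg (fun e => by have := e.1; simp only at this; omega), if_pos]
    refine ⟨rfl, ?_⟩
    simp only [add_sub_cancel_right]
    rwa [show N - (N - X) = X by omega]
  constructor
  · simp [root, k1, rt]
  · rw [← gl_R (by omega)]; simp [root, k2, rt]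

lemma root_V {i j : ℤ} {k : ℕ} (h : D.shV (i, j) k) :
    D.root A (i, j) (0, k) = D.root A (i, j + 1) (0, k) := by
  have hr := D.hV _ _ _ h
  have p : ¬ Even (i + (j + 1)) := by
    rw [← add_assoc, Int.even_add_one]; exact not_not.2 hr.1
  have k1 : D.kd (i, j) (0, k) = 3 := by
    unfold kd
    rw [if_neg (fun e => by have := e.1; simp only at this; omega),
      if_neg (fun e => by have := e.1; simp only at this; omega), if_pos ⟨rfl, Or.inl ⟨hr.1, h⟩⟩]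
  have k2 : D.kd (i, j + 1) (0, k) = 3 := by
    unfold kd
    rw [if_neg (fun e => by have := e.1; simp only at this; omega),
      if_neg (fun e => by have := e.1; simp only at this; omega),
      if_pos ⟨rfl, Or.inr ⟨p, by simpa using h⟩⟩]
  simp only [root, k1, k2, rt, gl]
  simp only [p, hr.1]
  simp
  ring

lemma cv_box (o : Ok l Λ σ N lo hi A θ) {Q : ℤ × ℤ} {ν : ℕ × ℕ} {α β t : ℤ}
    (h : D.CV A Q ν α β t) :
    0 ≤ α ∧ α ≤ A ∧ 0 ≤ β ∧ β + 1 ≤ BB N ∧ 0 ≤ t ∧ t ≤ 3 * A + 3 * MM N ∧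
      (0 < t → 1 ≤ α ∧ α + 1 ≤ A ∧ 1 ≤ β) :=
  on_box (by have := o.hA; omega) (kok h.2.1) h.2.2

lemma col_wall {A i I α : ℤ} (h0 : 0 ≤ α) (h1 : α ≤ A) (hA : 0 < A) (e : i * A + α = I * A) :
    (α = 0 ∧ i = I) ∨ (α = A ∧ i = I - 1) := by
  rcases lt_trichotomy i (I - 1) with r | r | r
  · have : (i + 2) * A ≤ I * A := Int.mul_le_mul_of_nonneg_right (by omega) (by omega)
    rw [add_mul] at this; omega
  · right
    subst r
    rw [sub_mul] at e; omega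
  · rcases eq_or_lt_of_le (show I ≤ i by omega) with q | q
    · left; subst q; omega
    · have : (I + 1) * A ≤ i * A := Int.mul_le_mul_of_nonneg_right (by omega) (by omega)
      rw [add_mul] at this; omega

/-- A tree vertex on a vertical wall is the root of an arm. -/
lemma cv_wall (o : Ok l Λ σ N lo hi A θ) {Q : ℤ × ℤ} {ν : ℕ × ℕ} {α β t I : ℤ}
    (h : D.CV A Q ν α β t) (e : (gl A (BB N) Q α β).1 = I * A) :
    ∃ j X, D.shR (I - 1, j) X ∧ gl A (BB N) Q α β = gl A (BB N) (I - 1, j) A (bb N X) ∧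
      D.T Q ν = D.T (I - 1, j) (X, N - X) ∧ t = 0 := by
  have hA := o.hA
  have bx := cv_box o h
  have w := on_wall (by omega) (kok h.2.1) h.2.2
  obtain ⟨i, j⟩ := Q
  obtain ⟨X, k⟩ := ν
  rcases col_wall bx.1 bx.2.1 (by omega) e with ⟨a, b⟩ | ⟨a, b⟩
  · obtain ⟨w1, w2, w3⟩ := w.1 a
    obtain ⟨k0, sh⟩ := kd_two w1
    simp only at b k0 sh w2
    subst b k0
    have hr := D.hR _ _ _ sh
    have hX : N - (N - X) = X := by omega
    refine ⟨j, N - X, sh, ?_, ?_, w3⟩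
    · rw [← gl_R (by omega), hX, a, w2, sub_add_cancel]
    · rw [hr.2.2.2.2, hX, sub_add_cancel]
  · obtain ⟨w1, w2, w3⟩ := w.2.1 a
    obtain ⟨k0, sh⟩ := kd_one w1
    simp only at b k0 sh w2
    subst b
    obtain rfl : k = N - X := by omega
    exact ⟨j, X, sh, by rw [a, w2], rfl, w3⟩

/-- A tree vertex on a horizontal wall is the root of a bottom arm. -/
lemma cv_floor (o : Ok l Λ σ N lo hi A θ) {Q : ℤ × ℤ} {ν : ℕ × ℕ} {α t : ℤ}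
    (h : D.CV A Q ν α 0 t) :
    ∃ j, gl A (BB N) Q α 0 = (Q.1 * A + α, (j + 1) * BB N) ∧ α = A - 1 - N + ν.2 ∧
      D.T Q ν = D.T (Q.1, j) (0, ν.2) ∧ t = 0 := by
  have hA := o.hA
  obtain ⟨w1, w2, w3⟩ := (on_wall (by omega) (kok h.2.1) h.2.2).2.2 rfl
  obtain ⟨i, j⟩ := Q
  obtain ⟨X, k⟩ := ν
  obtain ⟨x0, b | b⟩ := kd_three w1
  · simp only at x0 b
    subst x0
    refine ⟨j, ?_, w2, rfl, w3⟩
    simp only [gl, b.1, if_true, Prod.mk.injEq, true_and]; ring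
  · simp only at x0 b
    subst x0
    refine ⟨j - 1, ?_, w2, ?_, w3⟩
    · simp only [gl, b.1, if_false, Prod.mk.injEq, true_and]; ring
    · have := (D.hV _ _ _ b.2).2.2.2.2.2
      rw [this, sub_add_cancel]

lemma gl_wall_inj {i j j' : ℤ} {X X' : ℕ} (h : 1 ≤ X) (h1 : X < N) (h' : 1 ≤ X') (h1' : X' < N)
    (e : gl A (BB N) (i, j) A (bb N X) = gl A (BB N) (i, j') A (bb N X')) : j = j' ∧ X = X' := by
  have b := bb_facts N X h1.le
  have b' := bb_facts N X' h1'.le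
  have e2 := congrArg Prod.snd e
  simp only [gl] at e2
  have := row_unique (by split_ifs <;> omega) (by split_ifs <;> omega) (by split_ifs <;> omega)
    (by split_ifs <;> omega) e2
  obtain ⟨rfl, -⟩ := this
  have := (gl_same e).2
  refine ⟨rfl, ?_⟩
  rcases bb_cases N X X' with r | r | r | r | r <;> omega

lemma cv_same (o : Ok l Λ σ N lo hi A θ) {Q : ℤ × ℤ} {ν ν' : ℕ × ℕ} {α β t t' : ℤ}
    (h : D.CV A Q ν α β t) (h' : D.CV A Q ν' α β t') : ν = ν' ∧ t = t' := by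
  have hA := o.hA
  obtain ⟨a, b, e⟩ := on_unique (by omega) (kok h.2.1) (kok h'.2.1)
    (fun a b => by rw [Prod.ext a b]) h.2.2 h'.2.2
  exact ⟨Prod.ext a b, e⟩

lemma cv_unique (o : Ok l Λ σ N lo hi A θ) {Q Q' : ℤ × ℤ} {ν ν' : ℕ × ℕ} {α β t α' β' t' : ℤ}
    (h : D.CV A Q ν α β t) (h' : D.CV A Q' ν' α' β' t')
    (e : gl A (BB N) Q α β = gl A (BB N) Q' α' β') :
    t = t' ∧ D.T Q ν = D.T Q' ν' ∧ (0 < t → Q = Q' ∧ ν = ν' ∧ α = α' ∧ β = β') := by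
  have hA := o.hA
  have bx := cv_box o h
  have bx' := cv_box o h'
  by_cases i1 : 1 ≤ α ∧ α + 1 ≤ A ∧ 1 ≤ β
  · obtain ⟨rfl, rfl, rfl⟩ := gl_inj i1.1 i1.2.1 i1.2.2 bx.2.2.2.1 bx'.1 bx'.2.1 bx'.2.2.1
      (by omega) e
    obtain ⟨rfl, rfl⟩ := cv_same o h h'
    exact ⟨rfl, rfl, fun _ => ⟨rfl, rfl, rfl, rfl⟩⟩
  by_cases i2 : 1 ≤ α' ∧ α' + 1 ≤ A ∧ 1 ≤ β'
  · obtain ⟨rfl, rfl, rfl⟩ := gl_inj i2.1 i2.2.1 i2.2.2 bx'.2.2.2.1 bx.1 bx.2.1 bx.2.2.1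
      (by omega) e.symm
    exact (i1 i2).elim
  have wl : ∀ I : ℤ, (gl A (BB N) Q α β).1 = I * A → t = t' ∧ D.T Q ν = D.T Q' ν' ∧
      (0 < t → Q = Q' ∧ ν = ν' ∧ α = α' ∧ β = β') := by
    intro I eI
    obtain ⟨j, X, a1, a2, a3, a4⟩ := cv_wall o h eI
    obtain ⟨j', X', b1, b2, b3, b4⟩ := cv_wall o h' (e ▸ eI)
    have r := D.hR _ _ _ a1
    have r' := D.hR _ _ _ b1
    obtain ⟨rfl, rfl⟩ := gl_wall_inj r.2.2.1 r.2.2.2.1 r'.2.2.1 r'.2.2.2.1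
      (a2.symm.trans (e.trans b2))
    exact ⟨by omega, a3.trans b3.symm, fun q => by omega⟩
  by_cases a0 : α = 0
  · exact wl Q.1 (by simp [gl, a0])
  by_cases a1 : α = A
  · exact wl (Q.1 + 1) (by simp only [gl, a1]; ring)
  by_cases a0' : α' = 0
  · exact wl Q'.1 (by rw [e]; simp [gl, a0'])
  by_cases a1' : α' = A
  · exact wl (Q'.1 + 1) (by rw [e]; simp only [gl, a1']; ring)
  obtain rfl : β = 0 := by omega
  obtain rfl : β' = 0 := by omega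
  obtain ⟨j, c1, c2, c3, c4⟩ := cv_floor o h
  obtain ⟨j', d1, d2, d3, d4⟩ := cv_floor o h'
  rw [c1, d1, Prod.mk.injEq] at e
  obtain ⟨u1, u2⟩ := row_unique (by omega) (by omega) bx'.1 bx'.2.1 e.1
  have hB := BB_ge N
  have u3 : j + 1 = j' + 1 := mul_right_cancel₀ (by omega) e.2
  have u4 : ν.2 = ν'.2 := by omega
  refine ⟨by omega, ?_, fun q => by omega⟩
  rw [c3, d3, u1, u4, show j = j' by omega]

lemma lv_box (o : Ok l Λ σ N lo hi A θ) {Q : ℤ × ℤ} {ν ν' : ℕ × ℕ} {α β : ℤ}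
    (h : D.LV A Q α β ν ν') :
    Q ∈ D.Act ∧ 1 ≤ α ∧ α + 1 ≤ A ∧ 2 ≤ β ∧ β + 2 ≤ BB N := by
  have hA := o.hA
  obtain ⟨h1, h2, h3, ⟨t, p⟩, ⟨t', p'⟩⟩ := h
  have m := on_main (by omega) (kok p.2.1) p.2.2 h1 h2
  have b := cv_box o p
  have b' := cv_box o p'
  exact ⟨p.1, by omega, by omega, by omega, by omega⟩

lemma lv_not_cv (o : Ok l Λ σ N lo hi A θ) {Q Q' : ℤ × ℤ} {ν ν' μ : ℕ × ℕ} {α β α' β' t : ℤ}
    (h : D.LV A Q α β ν ν') (h' : D.CV A Q' μ α' β' t) :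
    gl A (BB N) Q α β ≠ gl A (BB N) Q' α' β' := by
  intro e
  have hA := o.hA
  have b := lv_box o h
  have b' := cv_box o h'
  obtain ⟨rfl, rfl, rfl⟩ := gl_inj b.2.1 b.2.2.1 (by omega) (by omega) b'.1 b'.2.1 b'.2.2.1
    (by omega) e
  have := (on_main (by omega) (kok h'.2.1) h'.2.2 h.1 h.2.1).1
  have := h.2.2.1
  omega

lemma lv_unique (o : Ok l Λ σ N lo hi A θ) {Q Q' : ℤ × ℤ} {ν ν' μ μ' : ℕ × ℕ} {α β α' β' : ℤ}
    (h : D.LV A Q α β ν ν') (h' : D.LV A Q' α' β' μ μ')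
    (e : gl A (BB N) Q α β = gl A (BB N) Q' α' β') :
    Q = Q' ∧ α = α' ∧ β = β' ∧ ν = μ ∧ ν' = μ' := by
  have b := lv_box o h
  have b' := lv_box o h'
  obtain ⟨rfl, rfl, rfl⟩ := gl_inj b.2.1 b.2.2.1 (by omega) (by omega) (by omega) (by omega)
    (by omega) (by omega) e
  obtain ⟨-, -, -, ⟨t, p⟩, ⟨t', p'⟩⟩ := h
  obtain ⟨-, -, -, ⟨u, q⟩, ⟨u', q'⟩⟩ := h'
  exact ⟨rfl, rfl, rfl, (cv_same o p q).1, (cv_same o p' q').1⟩

lemma gl_not_wall {A B : ℤ} {Q : ℤ × ℤ} {α β I : ℤ} (h1 : 1 ≤ α) (h2 : α + 1 ≤ A) :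
    (gl A B Q α β).1 ≠ I * A := by
  intro e
  have := col_wall (i := Q.1) (I := I) (α := α) (by omega) (by omega) (by omega) e
  omega

lemma rho_pos (o : Ok l Λ σ N lo hi A θ) : 0 < l / A := by
  have hA := o.hA
  have : (0 : ℝ) < A := by exact_mod_cast (show 0 < A by omega)
  exact div_pos o.hl this

lemma mul_rho (o : Ok l Λ σ N lo hi A θ) : (A : ℝ) * (l / A) = l := by
  have hA := o.hA
  have : (A : ℝ) ≠ 0 := by exact_mod_cast (show A ≠ 0 by omega)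
  field_simp

lemma Y_mono (o : Ok l Λ σ N lo hi A θ) (a : ℤ) : StrictMono (D.Y A θ a) :=
  YY_mono (by have := BB_ge N; omega) o.hθ o.hθl D.hmid a

lemma ps_inj (o : Ok l Λ σ N lo hi A θ) {v w : ℤ × ℤ} (h : D.ps A θ v = D.ps A θ w) : v = w :=
  pt_inj (rho_pos o) (Y_mono o) h

lemma Y_row (o : Ok l Λ σ N lo hi A θ) (a j β : ℤ) (h0 : 0 ≤ β) (h1 : β ≤ BB N) :
    j * l ≤ D.Y A θ a (j * BB N + β) ∧ D.Y A θ a (j * BB N + β) ≤ (j + 1) * l :=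
  YY_bd (by have := BB_ge N; omega) o.hθ o.hθl D.hmid a j β h0 h1

lemma ps_sq (o : Ok l Λ σ N lo hi A θ) (Q : ℤ × ℤ) {α β : ℤ} (h0 : 0 ≤ α) (h1 : α ≤ A)
    (h2 : 0 ≤ β) (h3 : β ≤ BB N) : D.ps A θ (gl A (BB N) Q α β) ∈ sq l Q := by
  have r := rho_pos o
  have m := mul_rho o
  have a0 : (0 : ℝ) ≤ α := by exact_mod_cast h0
  have a1 : (α : ℝ) ≤ A := by exact_mod_cast h1
  have y := Y_row (D := D) o (Q.1 * A + α) Q.2 (if Even (Q.1 + Q.2) then BB N - β else β)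
    (by split_ifs <;> omega) (by split_ifs <;> omega)
  have e : (D.ps A θ (gl A (BB N) Q α β)).re = Q.1 * l + α * (l / A) := by
    simp only [ps, pt, gl]; push_cast; rw [add_mul, mul_assoc, m]
  refine ⟨?_, ?_, y.1, y.2⟩
  · rw [e]; nlinarith
  · rw [e]; nlinarith

lemma ps_in (Q : ℤ × ℤ) (α : ℤ) {β : ℤ} (h2 : 1 ≤ β) (h3 : β + 1 ≤ BB N) :
    ∃ b : ℤ, 1 ≤ b ∧ b ≤ BB N ∧ (b = β ∨ b = BB N - β) ∧ (Even (Q.1 + Q.2) → b = BB N - β) ∧
      (¬ Even (Q.1 + Q.2) → b = β) ∧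
      (D.ps A θ (gl A (BB N) Q α β)).re = ((Q.1 * A + α : ℤ) : ℝ) * (l / A) ∧
      (D.ps A θ (gl A (BB N) Q α β)).im =
        D.h Q.2 (((Q.1 * A + α : ℤ) : ℝ) * (l / A)) + b * θ := by
  refine ⟨if Even (Q.1 + Q.2) then BB N - β else β, by split_ifs <;> omega,
    by split_ifs <;> omega, by split_ifs <;> omega, fun e => if_pos e, fun e => if_neg e, rfl, ?_⟩
  exact YY_in _ _ _ (by split_ifs <;> omega) (by split_ifs <;> omega)

/-- Unit edges inside a band are short. -/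
lemma ps_short (o : Ok l Λ σ N lo hi A θ) (Q : ℤ × ℤ) {α β α' β' : ℤ} (h : Adj α β α' β')
    (h2 : 1 ≤ β) (h3 : β + 1 ≤ BB N) (h2' : 1 ≤ β') (h3' : β' + 1 ≤ BB N) :
    ‖D.ps A θ (gl A (BB N) Q α β) - D.ps A θ (gl A (BB N) Q α' β')‖ ≤ (2 + Λ) * (l / A) := by
  obtain ⟨b, -, -, -, b1, b2, e1, e2⟩ := ps_in (D := D) (A := A) (θ := θ) Q α h2 h3
  obtain ⟨b', -, -, -, b1', b2', e1', e2'⟩ := ps_in (D := D) (A := A) (θ := θ) Q α' h2' h3'
  have r := rho_pos o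
  have ha : |((α - α' : ℤ) : ℝ)| ≤ 1 := by
    have : |α - α'| ≤ 1 := by unfold Adj at h; rw [abs_le]; omega
    exact_mod_cast this
  have hb : |((b - b' : ℤ) : ℝ)| ≤ 1 := by
    have : |b - b'| ≤ 1 := by
      unfold Adj at h; rw [abs_le]
      by_cases q : Even (Q.1 + Q.2)
      · have := b1 q; have := b1' q; omega
      · have := b2 q; have := b2' q; omega
    exact_mod_cast this
  set x := ((Q.1 * A + α : ℤ) : ℝ) * (l / A) with hx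
  set x' := ((Q.1 * A + α' : ℤ) : ℝ) * (l / A) with hx'
  have dx : |x - x'| ≤ l / A := by
    have : x - x' = ((α - α' : ℤ) : ℝ) * (l / A) := by rw [hx, hx']; push_cast; ring
    rw [this, abs_mul, abs_of_pos r]; nlinarith
  have lp := D.hlip Q.2 x x'
  have db : |((b - b' : ℤ) : ℝ) * θ| ≤ l / A := by
    rw [abs_mul, abs_of_pos o.hθ]; nlinarith [o.hθρ, o.hθ]
  refine (Complex.norm_le_abs_re_add_abs_im _).trans ?_
  rw [Complex.sub_re, Complex.sub_im, e1, e1', e2, e2']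
  have : D.h Q.2 x + b * θ - (D.h Q.2 x' + b' * θ) =
      (D.h Q.2 x - D.h Q.2 x') + ((b - b' : ℤ) : ℝ) * θ := by push_cast; ring
  rw [this]
  have t := abs_add_le (D.h Q.2 x - D.h Q.2 x') (((b - b' : ℤ) : ℝ) * θ)
  nlinarith [o.hΛ]

/-- Band vertices are close to the profile. -/
lemma ps_prof (o : Ok l Λ σ N lo hi A θ) (Q : ℤ × ℤ) {α β : ℤ} (h2 : 1 ≤ β)
    (h3 : β + 1 ≤ BB N) {z : ℂ} (hz : z.im = D.h Q.2 z.re)
    (hx : |z.re - ((Q.1 * A + α : ℤ) : ℝ) * (l / A)| ≤ l / A) :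
    ‖z - D.ps A θ (gl A (BB N) Q α β)‖ ≤ (1 + Λ) * (l / A) + ((BB N : ℤ) : ℝ) * θ := by
  obtain ⟨b, b0, b1, -, -, -, e1, e2⟩ := ps_in (D := D) (A := A) (θ := θ) Q α h2 h3
  set x := ((Q.1 * A + α : ℤ) : ℝ) * (l / A)
  have lp := D.hlip Q.2 z.re x
  have c0 : (1 : ℝ) ≤ b := by exact_mod_cast b0
  have c1 : (b : ℝ) ≤ (BB N : ℤ) := by exact_mod_cast b1
  refine (Complex.norm_le_abs_re_add_abs_im _).trans ?_
  rw [Complex.sub_re, Complex.sub_im, e1, e2, hz]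
  have t := abs_sub (D.h Q.2 z.re - D.h Q.2 x) (b * θ)
  have u : |(b : ℝ) * θ| ≤ ((BB N : ℤ) : ℝ) * θ := by
    rw [abs_of_pos (by nlinarith [o.hθ])]; nlinarith [o.hθ]
  rw [show D.h Q.2 z.re - (D.h Q.2 x + b * θ) = D.h Q.2 z.re - D.h Q.2 x - b * θ by ring]
  nlinarith [o.hΛ]

end GridData

end Pool.Agent.MP_d32a63_an.H23
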