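import Mathlib

/-! The pattern of strands in one cell, in local integer coordinates. -/

namespace Pool.Agent.MP_d32a63_an.H23

/-- Height of one pass. -/
def MM (N : ℕ) : ℤ := 4 * N + 4

/-- Level of the separator below the pass `2 X`. -/
def bb (N X : ℕ) : ℤ := 2 * X * MM N

/-- Height of a cell. -/
def BB (N : ℕ) : ℤ := bb N N + MM N

lemma bb_zero (N : ℕ) : bb N 0 = 0 := by simp [bb]

lemma bb_succ (N X : ℕ) : bb N (X + 1) = bb N X + 2 * MM N := by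
  simp only [bb]; push_cast; ring

lemma bb_add (N X Y : ℕ) : bb N (X + Y) = bb N X + bb N Y := by
  simp only [bb]; push_cast; ring

lemma bb_nonneg (N X : ℕ) : 0 ≤ bb N X := by
  unfold bb MM; positivity

lemma bb_even (N X : ℕ) : ∃ e : ℤ, bb N X = 2 * e := ⟨X * MM N, by unfold bb; ring⟩

lemma bb_mono (N : ℕ) {X Y : ℕ} (h : X ≤ Y) : bb N X ≤ bb N Y := by
  obtain ⟨d, rfl⟩ := Nat.exists_eq_add_of_le h
  have := bb_nonneg N d
  rw [bb_add]; omega

lemma bb_lt (N : ℕ) {X Y : ℕ} (h : X < Y) : bb N X + 2 * MM N ≤ bb N Y := by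
  rw [← bb_succ]; exact bb_mono N h

lemma bb_cases (N X Y : ℕ) :
    (X = Y ∧ bb N X = bb N Y) ∨ (Y = X + 1 ∧ bb N Y = bb N X + 2 * MM N) ∨
    (X = Y + 1 ∧ bb N X = bb N Y + 2 * MM N) ∨ (X + 2 ≤ Y ∧ bb N X + 4 * MM N ≤ bb N Y) ∨
    (Y + 2 ≤ X ∧ bb N Y + 4 * MM N ≤ bb N X) := by
  rcases lt_trichotomy X Y with h | h | h
  · rcases Nat.eq_or_lt_of_le (Nat.succ_le_of_lt h) with h1 | h1
    · right; left; exact ⟨h1.symm, by rw [← h1]; exact bb_succ N X⟩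
    · right; right; right; left
      have := bb_lt N h1
      have := bb_succ N X
      simp only [Nat.succ_eq_add_one] at *
      exact ⟨by omega, by omega⟩
  · left; exact ⟨h, by rw [h]⟩
  · rcases Nat.eq_or_lt_of_le (Nat.succ_le_of_lt h) with h1 | h1
    · right; right; left; exact ⟨h1.symm, by rw [← h1]; exact bb_succ N Y⟩
    · right; right; right; right
      have := bb_lt N h1
      have := bb_succ N Y
      simp only [Nat.succ_eq_add_one] at *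
      exact ⟨by omega, by omega⟩

/-- Basic facts about the separator of the column `X ≤ N`. -/
lemma bb_facts (N X : ℕ) (h : X ≤ N) :
    MM N = 4 * N + 4 ∧ 0 ≤ bb N X ∧ (X = 0 → bb N X = 0) ∧ (1 ≤ X → 2 * MM N ≤ bb N X) ∧
    bb N X + MM N ≤ BB N ∧ (X < N → bb N X + 3 * MM N ≤ BB N) ∧
    (X = N → bb N X + MM N = BB N) := by
  refine ⟨rfl, bb_nonneg N X, fun h => by rw [h, bb_zero], fun h1 => ?_, ?_, fun h1 => ?_,
    fun h1 => by rw [h1]; rfl⟩
  · have := bb_lt N (show 0 < X by omega)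
    rw [bb_zero] at this; omega
  · have := bb_mono N h
    unfold BB; omega
  · have := bb_lt N h1
    unfold BB; omega

/-- Unit steps of the grid. -/
def Adj (α β α' β' : ℤ) : Prop :=
  (α' = α ∧ (β' = β + 1 ∨ β' = β - 1)) ∨ (β' = β ∧ (α' = α + 1 ∨ α' = α - 1))

/-- The point `(α, β)` is on the strand of the node `(X, k)`, at arc length `u`. -/
def Pos (A : ℤ) (N X k : ℕ) (α β u : ℤ) : Prop :=
  1 ≤ β ∧ β + 1 ≤ BB N ∧
  ((β = bb N X - 3 - 4 * k ∧ N + 2 ≤ α ∧ α ≤ A - 1 - N + k ∧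
      u = -3 - 4 * k - (A - 1 - N + k - α)) ∨
   (α = A - 1 - N + k ∧ bb N X - 3 - 4 * k ≤ β ∧ β ≤ bb N X + 2 * k + 1 ∧ u = β - bb N X) ∨
   (β = bb N X + 2 * k + 1 ∧ 1 + k ≤ α ∧ α ≤ A - 1 - N + k ∧
      u = 2 * k + 1 + (A - 1 - N + k - α)) ∨
   (α = 1 + k ∧ bb N X + 2 * k + 1 ≤ β ∧ β ≤ bb N X + 2 * MM N - 1 - 4 * k ∧
      u = β - bb N X + (A - 2 - N)) ∨
   (β = bb N X + 2 * MM N - 1 - 4 * k ∧ 1 + k ≤ α ∧ α ≤ A - N - 2 ∧
      u = 2 * MM N - 1 - 4 * k + (A - 2 - N) + (α - 1 - k)))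

lemma pos_unique {A : ℤ} {N X k X' k' : ℕ} {α β u u' : ℤ} (hA : 2 * N + 5 ≤ A)
    (h : X + k ≤ N) (h' : X' + k' ≤ N) (p : Pos A N X k α β u) (p' : Pos A N X' k' α β u') :
    X = X' ∧ k = k' ∧ u = u' := by
  have hM : MM N = 4 * N + 4 := rfl
  obtain ⟨-, -, p⟩ := p
  obtain ⟨-, -, p'⟩ := p'
  rcases bb_cases N X X' with c | c | c | c | c <;>
  rcases p with p | p | p | p | p <;> rcases p' with p' | p' | p' | p' | p' <;> omega

lemma pos_down {A : ℤ} {N X k : ℕ} {α β u : ℤ} (hA : 2 * N + 5 ≤ A) (h : X + k ≤ N)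
    (p : Pos A N X k α β u) (hu : 2 ≤ u ∨ (1 ≤ X ∧ 1 ≤ u)) :
    ∃ α' β', Pos A N X k α' β' (u - 1) ∧ Adj α β α' β' := by
  have hb := bb_facts N X (by omega)
  obtain ⟨p1, p2, p⟩ := p
  rcases p with p | p | p | p | p
  · omega
  · exact ⟨α, β - 1, by unfold Pos; omega, by unfold Adj; omega⟩
  · by_cases e : α = A - 1 - N + k
    · exact ⟨α, β - 1, by unfold Pos; omega, by unfold Adj; omega⟩
    · exact ⟨α + 1, β, by unfold Pos; omega, by unfold Adj; omega⟩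
  · by_cases e : β = bb N X + 2 * k + 1
    · exact ⟨α + 1, β, by unfold Pos; omega, by unfold Adj; omega⟩
    · exact ⟨α, β - 1, by unfold Pos; omega, by unfold Adj; omega⟩
  · by_cases e : α = 1 + k
    · exact ⟨α, β - 1, by unfold Pos; omega, by unfold Adj; omega⟩
    · exact ⟨α - 1, β, by unfold Pos; omega, by unfold Adj; omega⟩

lemma pos_up {A : ℤ} {N X k : ℕ} {α β u : ℤ} (hA : 2 * N + 5 ≤ A) (h : X + k ≤ N)
    (p : Pos A N X k α β u) (hu : u < 0 ∨ (k = 0 ∧ X < N ∧ u < MM N + (A - 2 - N))) :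
    ∃ α' β', Pos A N X k α' β' (u + 1) ∧ Adj α β α' β' := by
  have hb := bb_facts N X (by omega)
  obtain ⟨p1, p2, p⟩ := p
  rcases p with p | p | p | p | p
  · by_cases e : α = A - 1 - N + k
    · exact ⟨α, β + 1, by unfold Pos; omega, by unfold Adj; omega⟩
    · exact ⟨α + 1, β, by unfold Pos; omega, by unfold Adj; omega⟩
  · by_cases e : β = bb N X + 2 * k + 1
    · exact ⟨α - 1, β, by unfold Pos; omega, by unfold Adj; omega⟩
    · exact ⟨α, β + 1, by unfold Pos; omega, by unfold Adj; omega⟩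
  · by_cases e : α = 1 + k
    · exact ⟨α, β + 1, by unfold Pos; omega, by unfold Adj; omega⟩
    · exact ⟨α - 1, β, by unfold Pos; omega, by unfold Adj; omega⟩
  · exact ⟨α, β + 1, by unfold Pos; omega, by unfold Adj; omega⟩
  · omega

/-- Admissible kinds: `0` unshared, `1` right arm, `2` left arm, `3` bottom arm. -/
def Kok (N c X k : ℕ) : Prop :=
  X + k ≤ N ∧ c ≤ 3 ∧ (c = 1 → X + k = N ∧ 1 ≤ X ∧ X < N) ∧ (c = 2 → k = 0 ∧ 1 ≤ X ∧ X < N) ∧
    (c = 3 → X = 0 ∧ 1 ≤ k ∧ k < N)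

/-- The point `(α, β)` is on the tree of the node `(X, k)` of kind `c`, at depth `t`. -/
def On (A : ℤ) (N c X k : ℕ) (α β t : ℤ) : Prop :=
  (∃ u, Pos A N X k α β u ∧
    ((c = 0 ∧ X = 0 ∧ t = u - 1) ∨ (c = 0 ∧ 1 ≤ X ∧ t = max u (-u)) ∨
     (c = 1 ∧ t = max u (-u) + (N + 1 - k)) ∨
     (c = 2 ∧ t = max (u - (MM N + (A - 2 - N))) (MM N + (A - 2 - N) - u) + 1) ∨
     (c = 3 ∧ t = u))) ∨
  (c = 1 ∧ β = bb N X ∧ A - 1 - N + k < α ∧ α ≤ A ∧ t = A - α) ∨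
  (c = 2 ∧ α = 0 ∧ β = bb N X + MM N ∧ t = 0) ∨
  (c = 3 ∧ α = A - 1 - N + k ∧ β = 0 ∧ t = 0)

/-- The root of the tree. -/
def rt (A : ℤ) (N c X k : ℕ) : ℤ × ℤ :=
  if c = 1 then (A, bb N X) else if c = 2 then (0, bb N X + MM N)
  else if c = 3 then (A - 1 - N + k, 0) else if X = 0 then (A - 1 - N + k, 1)
  else (A - 1 - N + k, bb N X)

lemma pos_box {A : ℤ} {N X k : ℕ} {α β u : ℤ} (hA : 2 * N + 5 ≤ A) (h : X + k ≤ N)
    (p : Pos A N X k α β u) :
    1 ≤ α ∧ α + 1 ≤ A ∧ 1 ≤ β ∧ β + 1 ≤ BB N ∧ -A - MM N ≤ u ∧ u ≤ 2 * A + 2 * MM N ∧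
      (X = 0 → 1 ≤ u) := by
  have hb := bb_facts N X (by omega)
  obtain ⟨p1, p2, p⟩ := p
  rcases p with p | p | p | p | p <;> omega

/-- A strand does not meet the arm of another node. -/
lemma pos_arm {A : ℤ} {N X k X' k' : ℕ} {α β u : ℤ} (hA : 2 * N + 5 ≤ A) (h : X + k ≤ N)
    (h' : X' + k' = N) (p : Pos A N X k α β u) (e : β = bb N X') (e' : A - 1 - N + k' < α) :
    False := by
  have hM : MM N = 4 * N + 4 := rfl
  obtain ⟨-, -, p⟩ := p
  rcases bb_cases N X X' with c | c | c | c | c <;>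
  rcases p with p | p | p | p | p <;> omega

lemma on_unique {A : ℤ} {N c X k c' X' k' : ℕ} {α β t t' : ℤ} (hA : 2 * N + 5 ≤ A)
    (h : Kok N c X k) (h' : Kok N c' X' k') (hc : X = X' → k = k' → c = c')
    (p : On A N c X k α β t) (p' : On A N c' X' k' α β t') : X = X' ∧ k = k' ∧ t = t' := by
  have hb := bb_facts N X (by unfold Kok at h; omega)
  have hb' := bb_facts N X' (by unfold Kok at h'; omega)
  unfold Kok at h h'
  rcases p with ⟨u, p, q⟩ | p | p | p <;> rcases p' with ⟨u', p', q'⟩ | p' | p' | p'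
  · obtain ⟨e1, e2, e3⟩ := pos_unique hA h.1 h'.1 p p'
    have := hc e1 e2
    subst e1 e2 e3
    omega
  · exact (pos_arm hA h.1 (h'.2.2.1 p'.1).1 p p'.2.1 p'.2.2.1).elim
  · have := pos_box hA h.1 p; omega
  · have := pos_box hA h.1 p; omega
  · exact (pos_arm hA h'.1 (h.2.2.1 p.1).1 p' p.2.1 p.2.2.1).elim
  · rcases bb_cases N X X' with e | e | e | e | e <;> omega
  · omega
  · omega
  · have := pos_box hA h'.1 p'; omega
  · omega
  · rcases bb_cases N X X' with e | e | e | e | e <;> omega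
  · omega
  · have := pos_box hA h'.1 p'; omega
  · omega
  · omega
  · omega

lemma on_box {A : ℤ} {N c X k : ℕ} {α β t : ℤ} (hA : 2 * N + 5 ≤ A) (h : Kok N c X k)
    (p : On A N c X k α β t) :
    0 ≤ α ∧ α ≤ A ∧ 0 ≤ β ∧ β + 1 ≤ BB N ∧ 0 ≤ t ∧ t ≤ 3 * A + 3 * MM N ∧
      (0 < t → 1 ≤ α ∧ α + 1 ≤ A ∧ 1 ≤ β) := by
  have hb := bb_facts N X (by unfold Kok at h; omega)
  unfold Kok at h
  rcases p with ⟨u, p, q⟩ | p | p | p
  · have := pos_box hA h.1 p; omega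
  · omega
  · omega
  · omega

lemma on_wall {A : ℤ} {N c X k : ℕ} {α β t : ℤ} (hA : 2 * N + 5 ≤ A) (h : Kok N c X k)
    (p : On A N c X k α β t) :
    (α = 0 → c = 2 ∧ β = bb N X + MM N ∧ t = 0) ∧ (α = A → c = 1 ∧ β = bb N X ∧ t = 0) ∧
      (β = 0 → c = 3 ∧ α = A - 1 - N + k ∧ t = 0) := by
  have hb := bb_facts N X (by unfold Kok at h; omega)
  unfold Kok at h
  rcases p with ⟨u, p, q⟩ | p | p | p
  · have := pos_box hA h.1 p; omega
  · omega
  · omega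
  · omega

lemma on_step {A : ℤ} {N c X k : ℕ} {α β t : ℤ} (hA : 2 * N + 5 ≤ A) (h : Kok N c X k)
    (p : On A N c X k α β t) (ht : 0 < t) :
    ∃ α' β', On A N c X k α' β' (t - 1) ∧ Adj α β α' β' := by
  have hb := bb_facts N X (by unfold Kok at h; omega)
  unfold Kok at h
  rcases p with ⟨u, p, q⟩ | p | p | p
  · have hx := pos_box hA h.1 p
    have dn : (2 ≤ u ∨ (1 ≤ X ∧ 1 ≤ u)) →
        ((c = 0 ∧ X = 0 ∧ t - 1 = u - 1 - 1) ∨ (c = 0 ∧ 1 ≤ X ∧ t - 1 = max (u - 1) (-(u - 1))) ∨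
        (c = 1 ∧ t - 1 = max (u - 1) (-(u - 1)) + (N + 1 - k)) ∨
        (c = 2 ∧ t - 1 = max (u - 1 - (MM N + (A - 2 - N))) (MM N + (A - 2 - N) - (u - 1)) + 1) ∨
        (c = 3 ∧ t - 1 = u - 1)) → ∃ α' β', On A N c X k α' β' (t - 1) ∧ Adj α β α' β' := by
      intro h1 h2
      obtain ⟨α', β', r, s⟩ := pos_down hA h.1 p h1
      exact ⟨α', β', Or.inl ⟨u - 1, r, h2⟩, s⟩
    have up : (u < 0 ∨ (k = 0 ∧ X < N ∧ u < MM N + (A - 2 - N))) →
        ((c = 0 ∧ X = 0 ∧ t - 1 = u + 1 - 1) ∨ (c = 0 ∧ 1 ≤ X ∧ t - 1 = max (u + 1) (-(u + 1))) ∨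
        (c = 1 ∧ t - 1 = max (u + 1) (-(u + 1)) + (N + 1 - k)) ∨
        (c = 2 ∧ t - 1 = max (u + 1 - (MM N + (A - 2 - N))) (MM N + (A - 2 - N) - (u + 1)) + 1) ∨
        (c = 3 ∧ t - 1 = u + 1)) → ∃ α' β', On A N c X k α' β' (t - 1) ∧ Adj α β α' β' := by
      intro h1 h2
      obtain ⟨α', β', r, s⟩ := pos_up hA h.1 p h1
      exact ⟨α', β', Or.inl ⟨u + 1, r, h2⟩, s⟩
    rcases q with q | q | q | q | q
    · exact dn (by clear dn up; omega) (by clear dn up; omega)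
    · rcases lt_trichotomy u 0 with e | e | e
      · exact up (by clear dn up; omega) (by clear dn up; omega)
      · omega
      · exact dn (by clear dn up; omega) (by clear dn up; omega)
    · rcases lt_trichotomy u 0 with e | e | e
      · exact up (by clear dn up; omega) (by clear dn up; omega)
      · clear dn up
        obtain ⟨p1, p2, p⟩ := p
        refine ⟨α + 1, β, Or.inr (Or.inl ?_), by unfold Adj; omega⟩
        rcases p with p | p | p | p | p <;> omega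
      · exact dn (by clear dn up; omega) (by clear dn up; omega)
    · rcases lt_trichotomy u (MM N + (A - 2 - N)) with e | e | e
      · exact up (by clear dn up; omega) (by clear dn up; omega)
      · clear dn up
        obtain ⟨p1, p2, p⟩ := p
        refine ⟨α - 1, β, Or.inr (Or.inr (Or.inl ?_)), by unfold Adj; omega⟩
        rcases p with p | p | p | p | p <;> omega
      · exact dn (by clear dn up; omega) (by clear dn up; omega)
    · by_cases e : u = 1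
      · clear dn up
        obtain ⟨p1, p2, p⟩ := p
        refine ⟨α, β - 1, Or.inr (Or.inr (Or.inr ?_)), by unfold Adj; omega⟩
        rcases p with p | p | p | p | p <;> omega
      · exact dn (by clear dn up; omega) (by clear dn up; omega)
  · exact ⟨α + 1, β, Or.inr (Or.inl (by omega)), by unfold Adj; omega⟩
  · omega
  · omega

lemma on_zero {A : ℤ} {N c X k : ℕ} {α β : ℤ} (hA : 2 * N + 5 ≤ A) (h : Kok N c X k)
    (p : On A N c X k α β 0) : (α, β) = rt A N c X k := by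
  have hb := bb_facts N X (by unfold Kok at h; omega)
  unfold Kok at h
  unfold rt
  rcases p with ⟨u, ⟨p1, p2, p⟩, q⟩ | p | p | p
  · split_ifs <;> rw [Prod.mk.injEq] <;> rcases p with p | p | p | p | p <;> omega
  · split_ifs <;> rw [Prod.mk.injEq] <;> omega
  · split_ifs <;> rw [Prod.mk.injEq] <;> omega
  · split_ifs <;> rw [Prod.mk.injEq] <;> omega

lemma pos_on {A : ℤ} {N c X k : ℕ} {α β u : ℤ} (h : Kok N c X k) (p : Pos A N X k α β u) :
    ∃ t, On A N c X k α β t := by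
  unfold Kok at h
  have : c = 0 ∨ c = 1 ∨ c = 2 ∨ c = 3 := by omega
  rcases this with e | e | e | e
  · by_cases x : X = 0
    · exact ⟨_, Or.inl ⟨u, p, Or.inl ⟨e, x, rfl⟩⟩⟩
    · exact ⟨_, Or.inl ⟨u, p, Or.inr (Or.inl ⟨e, by omega, rfl⟩)⟩⟩
  · exact ⟨_, Or.inl ⟨u, p, Or.inr (Or.inr (Or.inl ⟨e, rfl⟩))⟩⟩
  · exact ⟨_, Or.inl ⟨u, p, Or.inr (Or.inr (Or.inr (Or.inl ⟨e, rfl⟩)))⟩⟩
  · exact ⟨_, Or.inl ⟨u, p, Or.inr (Or.inr (Or.inr (Or.inr ⟨e, rfl⟩)))⟩⟩

/-- In the main range the trees occupy odd levels only, at positive depth. -/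
lemma on_main {A : ℤ} {N c X k : ℕ} {α β t : ℤ} (hA : 2 * N + 5 ≤ A) (h : Kok N c X k)
    (p : On A N c X k α β t) (h1 : N + 2 ≤ α) (h2 : α ≤ A - N - 2) : β % 2 = 1 ∧ 0 < t := by
  have hb := bb_facts N X (by unfold Kok at h; omega)
  obtain ⟨e, he⟩ := bb_even N X
  unfold Kok at h
  rcases p with ⟨u, ⟨p1, p2, p⟩, q⟩ | p | p | p
  · rcases p with p | p | p | p | p <;> omega
  · omega
  · omega
  · omega

lemma pos_main (A : ℤ) {N X k : ℕ} (α : ℤ) (h : X + k ≤ N) (h1 : N + 2 ≤ α)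
    (h2 : α ≤ A - N - 2) : ∃ u, Pos A N X k α (bb N X + 2 * k + 1) u := by
  have hb := bb_facts N X (by omega)
  exact ⟨2 * k + 1 + (A - 1 - N + k - α), by unfold Pos; omega⟩

/-- Lattice neighbours are two levels apart in some pass. -/
lemma pos_nb (A : ℤ) {N X k X' k' : ℕ} (α : ℤ) (h : X + k ≤ N) (h' : X' + k' ≤ N)
    (hn : (X' = X ∧ k' = k + 1) ∨ (X' = X + 1 ∧ k' = k) ∨ (X' + 1 = X ∧ k' = k + 1))
    (h1 : N + 2 ≤ α) (h2 : α ≤ A - N - 2) :
    ∃ β u u', β % 2 = 0 ∧ ((Pos A N X k α (β - 1) u ∧ Pos A N X' k' α (β + 1) u') ∨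
      (Pos A N X' k' α (β - 1) u' ∧ Pos A N X k α (β + 1) u)) := by
  have hb := bb_facts N X (by omega)
  have hb' := bb_facts N X' (by omega)
  obtain ⟨e, he⟩ := bb_even N X
  rcases hn with ⟨rfl, rfl⟩ | ⟨rfl, rfl⟩ | ⟨rfl, rfl⟩
  · refine ⟨bb N X' + 2 * k + 2, 2 * k + 1 + (A - 1 - N + k - α),
      2 * (k + 1) + 1 + (A - 1 - N + (k + 1) - α), by omega, Or.inl ⟨?_, ?_⟩⟩ <;>
    unfold Pos <;> omega
  · have := bb_succ N X
    refine ⟨bb N X + 2 * MM N - 2 - 4 * k', 2 * MM N - 1 - 4 * k' + (A - 2 - N) + (α - 1 - k'),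
      -3 - 4 * k' - (A - 1 - N + k' - α), by omega, Or.inr ⟨?_, ?_⟩⟩ <;>
    unfold Pos <;> omega
  · have := bb_succ N X'
    refine ⟨bb N (X' + 1) - 4 - 4 * k, -3 - 4 * k - (A - 1 - N + k - α),
      2 * MM N - 1 - 4 * (k + 1) + (A - 2 - N) + (α - 1 - (k + 1)), by omega,
      Or.inr ⟨?_, ?_⟩⟩ <;>
    unfold Pos <;> omega

lemma on_rt {A : ℤ} {N c X k : ℕ} (hA : 2 * N + 5 ≤ A) (h : Kok N c X k) :
    ∃ α β, On A N c X k α β 1 ∧ On A N c X k (rt A N c X k).1 (rt A N c X k).2 0 := by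
  obtain ⟨u, p⟩ := pos_main A (N + 2) h.1 le_rfl (by omega)
  obtain ⟨t, q⟩ := pos_on h p
  have ht := (on_main hA h q le_rfl (by omega)).2
  have key : ∀ m : ℕ, ∀ α β, On A N c X k α β (m + 1) → ∃ α β, On A N c X k α β 1 := by
    intro m
    induction m with
    | zero => intro α β r; exact ⟨α, β, by simpa using r⟩
    | succ m ih =>
      intro α β r
      obtain ⟨α', β', r', -⟩ := on_step hA h r (by omega)
      exact ih α' β' (by convert r' using 1; push_cast; ring)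
  obtain ⟨α, β, r⟩ := key (t - 1).toNat _ _ (by convert q using 1; omega)
  obtain ⟨α', β', r', -⟩ := on_step hA h r (by omega)
  have e := on_zero hA h (by simpa using r')
  refine ⟨α, β, r, ?_⟩
  rw [← e]; simpa using r'

end Pool.Agent.MP_d32a63_an.H23
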