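import Pool.Agent.MP_d32a63_an.H23.Spec
import Pool.Agent.MP_d32a63_an.H23.Pat

/-! Geometry of the grid: unit segments do not cross. -/

namespace Pool.Agent.MP_d32a63_an.H23

open Set

lemma mem_seg {P Q z : ℂ} (h : z ∈ segment ℝ P Q) :
    ∃ t : ℝ, 0 ≤ t ∧ t ≤ 1 ∧ z.re = (1 - t) * P.re + t * Q.re ∧
      z.im = (1 - t) * P.im + t * Q.im := by
  obtain ⟨a, b, ha, hb, hab, rfl⟩ := h
  have : a = 1 - b := by linarith
  subst this
  exact ⟨b, hb, by linarith, by simp, by simp⟩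

lemma mem_oseg {P Q z : ℂ} (h : z ∈ openSegment ℝ P Q) :
    ∃ t : ℝ, 0 < t ∧ t < 1 ∧ z.re = (1 - t) * P.re + t * Q.re ∧
      z.im = (1 - t) * P.im + t * Q.im := by
  obtain ⟨a, b, ha, hb, hab, rfl⟩ := h
  have : a = 1 - b := by linarith
  subst this
  exact ⟨b, hb, by linarith, by simp, by simp⟩

lemma mem_vseg {x y y' : ℝ} {z : ℂ} :
    z ∈ segment ℝ (⟨x, y⟩ : ℂ) ⟨x, y'⟩ ↔ z.re = x ∧ min y y' ≤ z.im ∧ z.im ≤ max y y' := by
  constructor
  · intro h
    obtain ⟨t, h0, h1, e1, e2⟩ := mem_seg h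
    simp only at e1 e2
    refine ⟨by rw [e1]; ring, ?_, ?_⟩
    · have a := min_le_left y y'
      have b := min_le_right y y'
      rw [e2]; nlinarith
    · have a := le_max_left y y'
      have b := le_max_right y y'
      rw [e2]; nlinarith
  · rintro ⟨e, h1, h2⟩
    have : z.im ∈ segment ℝ y y' := by rw [segment_eq_Icc']; exact ⟨h1, h2⟩
    obtain ⟨a, b, ha, hb, hab, e2⟩ := this
    refine ⟨a, b, ha, hb, hab, Complex.ext ?_ ?_⟩
    · simp only [Complex.add_re, Complex.smul_re, smul_eq_mul]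
      rw [e, ← add_mul, hab, one_mul]
    · simpa using e2

lemma mem_vopen {x y y' : ℝ} {z : ℂ} (hy : y ≠ y') :
    z ∈ openSegment ℝ (⟨x, y⟩ : ℂ) ⟨x, y'⟩ ↔ z.re = x ∧ min y y' < z.im ∧ z.im < max y y' := by
  constructor
  · intro h
    obtain ⟨t, h0, h1, e1, e2⟩ := mem_oseg h
    simp only at e1 e2
    refine ⟨by rw [e1]; ring, ?_, ?_⟩
    · rcases lt_or_gt_of_ne hy with c | c
      · rw [min_eq_left c.le, e2]; nlinarith
      · rw [min_eq_right c.le, e2]; nlinarith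
    · rcases lt_or_gt_of_ne hy with c | c
      · rw [max_eq_right c.le, e2]; nlinarith
      · rw [max_eq_left c.le, e2]; nlinarith
  · rintro ⟨e, h1, h2⟩
    have : z.im ∈ openSegment ℝ y y' := by rw [openSegment_eq_Ioo' hy]; exact ⟨h1, h2⟩
    obtain ⟨a, b, ha, hb, hab, e2⟩ := this
    refine ⟨a, b, ha, hb, hab, Complex.ext ?_ ?_⟩
    · simp only [Complex.add_re, Complex.smul_re, smul_eq_mul]
      rw [e, ← add_mul, hab, one_mul]
    · simpa using e2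

/-- Position of a grid vertex. -/
noncomputable def pt (ρ : ℝ) (Y : ℤ → ℤ → ℝ) (v : ℤ × ℤ) : ℂ := ⟨v.1 * ρ, Y v.1 v.2⟩

section NC

variable {ρ : ℝ} {Y : ℤ → ℤ → ℝ}

lemma pt_inj (hρ : 0 < ρ) (hY : ∀ a, StrictMono (Y a)) {v w : ℤ × ℤ}
    (h : pt ρ Y v = pt ρ Y w) : v = w := by
  have e1 : (v.1 : ℝ) * ρ = w.1 * ρ := congrArg Complex.re h
  have e2 : Y v.1 v.2 = Y w.1 w.2 := congrArg Complex.im h
  have e3 : v.1 = w.1 := by exact_mod_cast mul_right_cancel₀ hρ.ne' e1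
  rw [e3] at e2
  exact Prod.ext e3 ((hY w.1).injective e2)

lemma nc_HH (hρ : 0 < ρ) (hY : ∀ a, StrictMono (Y a)) {a b c d : ℤ} {z : ℂ}
    (h : z ∈ openSegment ℝ (pt ρ Y (a, b)) (pt ρ Y (a + 1, b)))
    (h' : z ∈ segment ℝ (pt ρ Y (c, d)) (pt ρ Y (c + 1, d))) : c = a ∧ d = b := by
  obtain ⟨t, h0, h1, e1, e2⟩ := mem_oseg h
  obtain ⟨s, g0, g1, f1, f2⟩ := mem_seg h'
  simp only [pt] at e1 e2 f1 f2
  push_cast at e1 f1
  have e : ((a : ℝ) + t) * ρ = (c + s) * ρ := by linarith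
  have e' : (a : ℝ) + t = c + s := mul_right_cancel₀ hρ.ne' e
  have ca : c = a := by
    have u1 : (c : ℝ) < a + 1 := by linarith
    have u2 : (a : ℝ) < c + 1 := by linarith
    have u1' : c < a + 1 := by exact_mod_cast u1
    have u2' : a < c + 1 := by exact_mod_cast u2
    omega
  subst ca
  have ts : s = t := by linarith
  subst ts
  refine ⟨rfl, ?_⟩
  rcases lt_trichotomy d b with r | r | r
  · have u1 := hY c r
    have u2 := hY (c + 1) r
    nlinarith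
  · exact r
  · have u1 := hY c r
    have u2 := hY (c + 1) r
    nlinarith

lemma nc_HV (hρ : 0 < ρ) {a b c d d' : ℤ} {z : ℂ}
    (h : z ∈ openSegment ℝ (pt ρ Y (a, b)) (pt ρ Y (a + 1, b)))
    (h' : z ∈ segment ℝ (pt ρ Y (c, d)) (pt ρ Y (c, d'))) : False := by
  obtain ⟨t, h0, h1, e1, -⟩ := mem_oseg h
  obtain ⟨s, g0, g1, f1, -⟩ := mem_seg h'
  simp only [pt] at e1 f1
  push_cast at e1 f1
  have e : ((a : ℝ) + t) * ρ = c * ρ := by linarith
  have e' : (a : ℝ) + t = c := mul_right_cancel₀ hρ.ne' e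
  have u1 : (c : ℝ) < a + 1 := by linarith
  have u2 : (a : ℝ) < c := by linarith
  have u1' : c < a + 1 := by exact_mod_cast u1
  have u2' : a < c := by exact_mod_cast u2
  omega

lemma open_V (hY : ∀ a, StrictMono (Y a)) {a b : ℤ} {z : ℂ}
    (h : z ∈ openSegment ℝ (pt ρ Y (a, b)) (pt ρ Y (a, b + 1))) :
    z.re = a * ρ ∧ Y a b < z.im ∧ z.im < Y a (b + 1) := by
  have l := hY a (show b < b + 1 by omega)
  have := (mem_vopen (x := a * ρ) l.ne).1 h
  rwa [min_eq_left l.le, max_eq_right l.le] at this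

lemma nc_VH (hρ : 0 < ρ) (hY : ∀ a, StrictMono (Y a)) {a b c d : ℤ} {z : ℂ}
    (h : z ∈ openSegment ℝ (pt ρ Y (a, b)) (pt ρ Y (a, b + 1)))
    (h' : z ∈ segment ℝ (pt ρ Y (c, d)) (pt ρ Y (c + 1, d))) : False := by
  obtain ⟨e1, e2, e3⟩ := open_V hY h
  obtain ⟨s, g0, g1, f1, f2⟩ := mem_seg h'
  simp only [pt] at f1 f2
  push_cast at f1
  have e : (a : ℝ) * ρ = (c + s) * ρ := by linarith
  have e' : (a : ℝ) = c + s := mul_right_cancel₀ hρ.ne' e
  have u1 : (c : ℝ) ≤ a := by linarith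
  have u2 : (a : ℝ) ≤ c + 1 := by linarith
  have u1' : c ≤ a := by exact_mod_cast u1
  have u2' : a ≤ c + 1 := by exact_mod_cast u2
  have key : z.im = Y a d := by
    rcases (show a = c ∨ a = c + 1 by omega) with r | r
    · subst r
      have : s = 0 := by linarith
      rw [f2, this]; ring
    · subst r
      have : s = 1 := by push_cast at e'; linarith
      rw [f2, this]; ring
  rw [key] at e2 e3
  have v1 := (hY a).lt_iff_lt.1 e2
  have v2 := (hY a).lt_iff_lt.1 e3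
  omega

lemma nc_VV (hρ : 0 < ρ) (hY : ∀ a, StrictMono (Y a)) {a b c d : ℤ} {z : ℂ}
    (h : z ∈ openSegment ℝ (pt ρ Y (a, b)) (pt ρ Y (a, b + 1)))
    (h' : z ∈ segment ℝ (pt ρ Y (c, d)) (pt ρ Y (c, d + 1))) : c = a ∧ d = b := by
  obtain ⟨e1, e2, e3⟩ := open_V hY h
  have l := hY c (show d < d + 1 by omega)
  obtain ⟨f1, f2, f3⟩ := (mem_vseg (x := c * ρ)).1 h'
  rw [min_eq_left l.le] at f2
  rw [max_eq_right l.le] at f3
  have e : (a : ℝ) * ρ = c * ρ := by linarith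
  have ca : a = c := by exact_mod_cast mul_right_cancel₀ hρ.ne' e
  subst ca
  have v1 := (hY a).lt_iff_lt.1 (lt_of_lt_of_le e2 f3)
  have v2 := (hY a).lt_iff_lt.1 (lt_of_le_of_lt f2 e3)
  omega

/-- Two unit segments that cross are equal. -/
lemma nc (hρ : 0 < ρ) (hY : ∀ a, StrictMono (Y a)) {v w v' w' : ℤ × ℤ} {z : ℂ}
    (hv : Adj v.1 v.2 w.1 w.2) (hv' : Adj v'.1 v'.2 w'.1 w'.2)
    (h : z ∈ openSegment ℝ (pt ρ Y v) (pt ρ Y w))
    (h' : z ∈ segment ℝ (pt ρ Y v') (pt ρ Y w')) : (v' = v ∧ w' = w) ∨ (v' = w ∧ w' = v) := by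
  obtain ⟨a, b⟩ := v
  obtain ⟨a1, b1⟩ := w
  obtain ⟨c, d⟩ := v'
  obtain ⟨c1, d1⟩ := w'
  simp only [Adj] at hv hv'
  simp only [Prod.mk.injEq]
  have hs := h
  have hs' := h'
  rw [openSegment_symm] at hs
  rw [segment_symm] at hs'
  rcases hv with ⟨r1, r2 | r2⟩ | ⟨r1, r2 | r2⟩ <;>
  rcases hv' with ⟨s1, s2 | s2⟩ | ⟨s1, s2 | s2⟩
  · subst r1 r2 s1 s2; have := nc_VV hρ hY h h'; omega
  · obtain rfl : d = d1 + 1 := by omega
    subst r1 r2 s1; have := nc_VV hρ hY h hs'; omega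
  · subst r1 r2 s1 s2; exact (nc_VH hρ hY h h').elim
  · obtain rfl : c = c1 + 1 := by omega
    subst r1 r2 s1; exact (nc_VH hρ hY h hs').elim
  · obtain rfl : b = b1 + 1 := by omega
    subst r1 s1 s2; have := nc_VV hρ hY hs h'; omega
  · obtain rfl : b = b1 + 1 := by omega
    obtain rfl : d = d1 + 1 := by omega
    subst r1 s1; have := nc_VV hρ hY hs hs'; omega
  · obtain rfl : b = b1 + 1 := by omega
    subst r1 s1 s2; exact (nc_VH hρ hY hs h').elim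
  · obtain rfl : b = b1 + 1 := by omega
    obtain rfl : c = c1 + 1 := by omega
    subst r1 s1; exact (nc_VH hρ hY hs hs').elim
  · subst r1 r2 s1 s2; exact (nc_HV hρ h h').elim
  · subst r1 r2 s1 s2; exact (nc_HV hρ h h').elim
  · subst r1 r2 s1 s2; have := nc_HH hρ hY h h'; omega
  · obtain rfl : c = c1 + 1 := by omega
    subst r1 r2 s1; have := nc_HH hρ hY h hs'; omega
  · obtain rfl : a = a1 + 1 := by omega
    subst r1 s1 s2; exact (nc_HV hρ hs h').elim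
  · obtain rfl : a = a1 + 1 := by omega
    subst r1 s1 s2; exact (nc_HV hρ hs h').elim
  · obtain rfl : a = a1 + 1 := by omega
    subst r1 s1 s2; have := nc_HH hρ hY hs h'; omega
  · obtain rfl : a = a1 + 1 := by omega
    obtain rfl : c = c1 + 1 := by omega
    subst r1 s1; have := nc_HH hρ hY hs hs'; omega

end NC

/-- Ordinates: thin bands along the row profiles, and the horizontal walls. -/
noncomputable def YY (l θ ρ : ℝ) (B : ℤ) (h : ℤ → ℝ → ℝ) (a b : ℤ) : ℝ :=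
  if b % B = 0 then ((b / B : ℤ) : ℝ) * l else h (b / B) (a * ρ) + ((b % B : ℤ) : ℝ) * θ

lemma row_div {B j β : ℤ} (h0 : 0 ≤ β) (h1 : β < B) : (j * B + β) / B = j := by
  rw [add_comm, Int.add_mul_ediv_right _ _ (by omega), Int.ediv_eq_zero_of_lt h0 h1, zero_add]

lemma row_mod {B j β : ℤ} (h0 : 0 ≤ β) (h1 : β < B) : (j * B + β) % B = β := by
  rw [add_comm, Int.add_mul_emod_self_right, Int.emod_eq_of_lt h0 h1]

lemma exists_row {B : ℤ} (hB : 0 < B) (b : ℤ) : ∃ j β, 0 ≤ β ∧ β < B ∧ b = j * B + β :=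
  ⟨b / B, b % B, Int.emod_nonneg _ hB.ne', Int.emod_lt_of_pos _ hB, by
    have := Int.emod_add_mul_ediv b B
    rw [mul_comm] at this; omega⟩

lemma row_unique {B j β j' β' : ℤ} (h0 : 1 ≤ β) (h1 : β < B) (g0 : 0 ≤ β') (g1 : β' ≤ B)
    (e : j * B + β = j' * B + β') : j = j' ∧ β = β' := by
  have : j = j' := by
    rcases lt_trichotomy j j' with r | r | r
    · have : (j + 1) * B ≤ j' * B := Int.mul_le_mul_of_nonneg_right (by omega) (by omega)
      rw [add_mul] at this; omega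
    · exact r
    · have : (j' + 1) * B ≤ j * B := Int.mul_le_mul_of_nonneg_right (by omega) (by omega)
      rw [add_mul] at this; omega
  subst this
  exact ⟨rfl, by omega⟩

section YY

variable {l θ ρ : ℝ} {B : ℤ} {h : ℤ → ℝ → ℝ}

lemma YY_wall (hB : 0 < B) (a j : ℤ) : YY l θ ρ B h a (j * B) = j * l := by
  have e1 := row_div (B := B) (j := j) (β := 0) le_rfl hB
  have e2 := row_mod (B := B) (j := j) (β := 0) le_rfl hB
  rw [add_zero] at e1 e2
  simp only [YY, e1, e2, if_true]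

lemma YY_in (a j β : ℤ) (h0 : 1 ≤ β) (h1 : β < B) :
    YY l θ ρ B h a (j * B + β) = h j (a * ρ) + β * θ := by
  have e1 := row_div (B := B) (j := j) (β := β) (by omega) h1
  have e2 := row_mod (B := B) (j := j) (β := β) (by omega) h1
  simp only [YY, e1, e2]
  rw [if_neg (by omega)]

lemma YY_in_bd (hθ : 0 < θ) (hl : (B : ℝ) * θ ≤ l / 12)
    (hm : ∀ (j : ℤ) x, |h j x - (j + 1 / 2) * l| ≤ l / 3) (a j β : ℤ) (h0 : 1 ≤ β) (h1 : β < B) :
    j * l < YY l θ ρ B h a (j * B + β) ∧ YY l θ ρ B h a (j * B + β) < (j + 1) * l := by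
  rw [YY_in a j β h0 h1]
  have := abs_le.1 (hm j (a * ρ))
  have b0 : (1 : ℝ) ≤ β := by exact_mod_cast h0
  have b1 : (β : ℝ) ≤ B := by exact_mod_cast h1.le
  have b2 : (β : ℝ) * θ ≤ B * θ := mul_le_mul_of_nonneg_right b1 hθ.le
  have b3 : 0 < (β : ℝ) * θ := by positivity
  constructor <;> linarith [this.1, this.2]

lemma YY_bd (hB : 0 < B) (hθ : 0 < θ) (hl : (B : ℝ) * θ ≤ l / 12)
    (hm : ∀ (j : ℤ) x, |h j x - (j + 1 / 2) * l| ≤ l / 3) (a j β : ℤ) (h0 : 0 ≤ β) (h1 : β ≤ B) :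
    j * l ≤ YY l θ ρ B h a (j * B + β) ∧ YY l θ ρ B h a (j * B + β) ≤ (j + 1) * l := by
  have hl0 : 0 < l := by
    have : 0 < (B : ℝ) * θ := mul_pos (by exact_mod_cast hB) hθ
    linarith
  rcases eq_or_lt_of_le h0 with r | r
  · rw [← r, add_zero, YY_wall hB]; constructor <;> linarith
  rcases eq_or_lt_of_le h1 with s | s
  · rw [s, show j * B + B = (j + 1) * B by ring, YY_wall hB]; push_cast; constructor <;> linarith
  have := YY_in_bd (ρ := ρ) hθ hl hm a j β r s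
  exact ⟨this.1.le, this.2.le⟩

lemma YY_mono (hB : 2 ≤ B) (hθ : 0 < θ) (hl : (B : ℝ) * θ ≤ l / 12)
    (hm : ∀ (j : ℤ) x, |h j x - (j + 1 / 2) * l| ≤ l / 3) (a : ℤ) :
    StrictMono (YY l θ ρ B h a) := by
  refine strictMono_int_of_lt_succ fun b => ?_
  obtain ⟨j, β, h0, h1, rfl⟩ := exists_row (show 0 < B by omega) b
  rcases eq_or_lt_of_le h0 with r | r
  · subst r
    have := (YY_in_bd (ρ := ρ) hθ hl hm a j 1 le_rfl (by omega)).1
    rw [add_zero, YY_wall (by omega)]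
    exact this
  rcases eq_or_lt_of_le (show β + 1 ≤ B by omega) with s | s
  · have := (YY_in_bd (ρ := ρ) hθ hl hm a j β r h1).2
    rw [show j * B + β + 1 = (j + 1) * B by rw [← s]; ring, YY_wall (by omega)]
    push_cast; exact this
  · rw [add_assoc, YY_in a j β r h1, YY_in a j (β + 1) (by omega) s]
    push_cast; linarith

end YY

/-- Global coordinates of the local point `(α, β)` of the cell `Q`; cells with `i + j` even are
mirrored. -/
def gl (A B : ℤ) (Q : ℤ × ℤ) (α β : ℤ) : ℤ × ℤ :=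
  (Q.1 * A + α, Q.2 * B + if Even (Q.1 + Q.2) then B - β else β)

lemma gl_adj {A B : ℤ} (Q : ℤ × ℤ) {α β α' β' : ℤ} (h : Adj α β α' β') :
    Adj (gl A B Q α β).1 (gl A B Q α β).2 (gl A B Q α' β').1 (gl A B Q α' β').2 := by
  unfold Adj gl at *
  simp only
  split_ifs <;> omega

lemma gl_inj {A B : ℤ} {Q Q' : ℤ × ℤ} {α β α' β' : ℤ} (h1 : 1 ≤ α) (h2 : α + 1 ≤ A) (h3 : 1 ≤ β)
    (h4 : β + 1 ≤ B) (g1 : 0 ≤ α') (g2 : α' ≤ A) (g3 : 0 ≤ β') (g4 : β' ≤ B)
    (e : gl A B Q α β = gl A B Q' α' β') : Q = Q' ∧ α = α' ∧ β = β' := by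
  simp only [gl, Prod.mk.injEq] at e
  obtain ⟨e1, e2⟩ := e
  obtain ⟨a1, a2⟩ := row_unique h1 (by omega) g1 g2 e1
  have b : Q.2 = Q'.2 ∧ (if Even (Q.1 + Q.2) then B - β else β) =
      (if Even (Q'.1 + Q'.2) then B - β' else β') :=
    row_unique (by split_ifs <;> omega) (by split_ifs <;> omega) (by split_ifs <;> omega)
      (by split_ifs <;> omega) e2
  have q : Q = Q' := Prod.ext a1 b.1
  subst q
  refine ⟨rfl, a2, ?_⟩
  have := b.2
  split_ifs at this <;> omega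

lemma gl_same {A B : ℤ} {Q : ℤ × ℤ} {α β α' β' : ℤ} (e : gl A B Q α β = gl A B Q α' β') :
    α = α' ∧ β = β' := by
  simp only [gl, Prod.mk.injEq] at e
  obtain ⟨e1, e2⟩ := e
  split_ifs at e2 <;> omega

lemma sq_dist {l : ℝ} {Q : ℤ × ℤ} {z w : ℂ} (hz : z ∈ sq l Q) (hw : w ∈ sq l Q) :
    ‖z - w‖ ≤ 2 * l := by
  obtain ⟨a1, a2, a3, a4⟩ := hz
  obtain ⟨b1, b2, b3, b4⟩ := hw
  have := Complex.norm_le_abs_re_add_abs_im (z - w)
  have u : |(z - w).re| ≤ l := by rw [Complex.sub_re, abs_le]; constructor <;> linarith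
  have v : |(z - w).im| ≤ l := by rw [Complex.sub_im, abs_le]; constructor <;> linarith
  linarith

lemma sq_convex (l : ℝ) (Q : ℤ × ℤ) {P R : ℂ} (hP : P ∈ sq l Q) (hR : R ∈ sq l Q) :
    segment ℝ P R ⊆ sq l Q := by
  intro z hz
  obtain ⟨t, h0, h1, e1, e2⟩ := mem_seg hz
  obtain ⟨a1, a2, a3, a4⟩ := hP
  obtain ⟨b1, b2, b3, b4⟩ := hR
  refine ⟨?_, ?_, ?_, ?_⟩ <;> nlinarith

lemma wall_sub (l : ℝ) (hl : 0 ≤ l) (I j : ℤ) : wall l I j ⊆ sq l (I - 1, j) := by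
  rintro z ⟨a, b, c⟩
  refine ⟨?_, ?_, b, c⟩
  · simp only; push_cast; rw [a]; linarith
  · simp only; push_cast; rw [a]; linarith

end Pool.Agent.MP_d32a63_an.H23
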