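import Pool.Agent.MP_d32a63_an.H23.Cell

/-! Threads: vertices, labels and the cost potential. -/

namespace Pool.Agent.MP_d32a63_an.H23

open Set Polynomial Pool.Agent.MP_d32a63_an.H95

namespace GridData

variable {n : ℕ} {s : Core n} {κ l Λ σ : ℝ} {N lo hi : ℕ} {τ : Type}
  (D : GridData s κ l Λ σ N lo hi τ) (A : ℕ) (θ : ℝ)

/-- Ordinates on the wall of the thread `t`. -/
noncomputable def Yw (t : τ) (b : ℤ) : ℝ := D.Y A θ (D.I t * A) b

/-- Grid vertices on the thread `t`. -/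
def TV (t : τ) (b : ℤ) : Prop :=
  t ∈ D.Th ∧ min (D.y0 t) (D.y1 t) < D.Yw A θ t b ∧ D.Yw A θ t b < max (D.y0 t) (D.y1 t)

/-- Direction of the thread. -/
noncomputable def dir (t : τ) : ℤ := if D.y0 t < D.y1 t then 1 else -1

open Classical in
/-- The last arm below the local level `β`. -/
noncomputable def ml (t : τ) (j β : ℤ) : ℕ :=
  Nat.findGreatest (fun X => D.shR (D.I t - 1, j) X ∧ lo ≤ X ∧ bb N X ≤ β) hi

/-- Label at the local level `β` of row `j`. -/
noncomputable def ll (t : τ) (j β : ℤ) : ℂ[X] :=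
  if j ∈ D.St t ∧ β < BB N ∧ D.ml t j β ≠ 0 then
    D.T (D.I t - 1, j) (D.ml t j β, N - D.ml t j β) else D.P t

/-- Label of a thread vertex. -/
noncomputable def tlab (t : τ) (b : ℤ) : ℂ[X] :=
  D.ll t (b / BB N) (if Even (D.I t - 1 + b / BB N) then BB N - b % BB N else b % BB N)

/-- Local potential. -/
noncomputable def psi (t : τ) (j β : ℤ) : ℝ :=
  if β < BB N then (if D.ml t j β ≠ 0 then D.c t + σ * ((D.ml t j β : ℝ) - lo) else 0)
  else 3 * D.c t

/-- Local potential in the global direction. -/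
noncomputable def psi' (t : τ) (j β : ℤ) : ℝ :=
  if j ∈ D.St t then
    (if Even (D.I t - 1 + j) then 3 * D.c t - D.psi t j (BB N - β) else D.psi t j β) else 0

/-- Global potential. -/
noncomputable def Psi (t : τ) (b : ℤ) : ℝ :=
  3 * D.c t * ((D.St t).filter (· < b / BB N)).card + D.psi' t (b / BB N) (b % BB N)

/-- Global potential in the direction of the thread. -/
noncomputable def Psd (t : τ) (b : ℤ) : ℝ :=
  if D.y0 t < D.y1 t then D.Psi t b else 3 * D.c t * (D.St t).card - D.Psi t b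

/-- Labels allowed in row `j`. -/
def LabOk (t : τ) (j : ℤ) (L : ℂ[X]) : Prop :=
  L = D.P t ∨ (j ∈ D.St t ∧ ∃ m ≤ N, L = D.T (D.I t - 1, j) (m, N - m))

open Classical in
/-- Ordinate of the parent of a thread vertex. -/
noncomputable def lowY (t : τ) (b : ℤ) : ℝ :=
  if D.TV A θ t (b - D.dir t) then D.Yw A θ t (b - D.dir t) else D.y0 t

/-- The last vertex of the thread. -/
noncomputable def last (t : τ) : ℤ :=
  Classical.epsilon fun b => D.TV A θ t b ∧ ¬ D.TV A θ t (b + D.dir t)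

variable {D A θ}

lemma ps_wall (o : Ok l Λ σ N lo hi A θ) (t : τ) (b : ℤ) :
    D.ps A θ (D.I t * A, b) = ⟨D.I t * l, D.Yw A θ t b⟩ := by
  refine Complex.ext ?_ rfl
  simp only [ps, pt]; push_cast; rw [mul_assoc, mul_rho o]

lemma y_ne (o : Ok l Λ σ N lo hi A θ) {t : τ} (h : t ∈ D.Th) : D.y0 t ≠ D.y1 t := by
  intro e
  have := D.len t h
  rw [e, sub_self, abs_zero] at this
  linarith [o.hl]

lemma tv_mem (o : Ok l Λ σ N lo hi A θ) {t : τ} {b : ℤ} (h : D.TV A θ t b) :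
    D.ps A θ (D.I t * A, b) ∈
      openSegment ℝ (⟨D.I t * l, D.y0 t⟩ : ℂ) ⟨D.I t * l, D.y1 t⟩ := by
  rw [ps_wall o, mem_vopen (y_ne o h.1)]
  exact ⟨rfl, h.2⟩

lemma tv_of_mem (o : Ok l Λ σ N lo hi A θ) {t : τ} {b : ℤ} (ht : t ∈ D.Th)
    (h : D.ps A θ (D.I t * A, b) ∈
      openSegment ℝ (⟨D.I t * l, D.y0 t⟩ : ℂ) ⟨D.I t * l, D.y1 t⟩) : D.TV A θ t b := by
  rw [ps_wall o, mem_vopen (y_ne o ht)] at h
  exact ⟨ht, h.2⟩

lemma tv_unique (o : Ok l Λ σ N lo hi A θ) {t t' : τ} {b b' : ℤ} (h : D.TV A θ t b)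
    (h' : D.TV A θ t' b') (e : ((D.I t * A, b) : ℤ × ℤ) = (D.I t' * A, b')) : t = t' ∧ b = b' := by
  refine ⟨?_, congrArg Prod.snd e⟩
  by_contra ne
  have a := tv_mem o h
  have a' := tv_mem o h'
  rw [← e] at a'
  exact Set.disjoint_left.1 (D.disj t h.1 t' h'.1 ne) a (openSegment_subset_segment _ _ _ a')

lemma Yw_mono (o : Ok l Λ σ N lo hi A θ) (t : τ) : StrictMono (D.Yw A θ t) := Y_mono o _

lemma Yw_wall (t : τ) (j : ℤ) : D.Yw A θ t (j * BB N) = j * l :=
  YY_wall (by have := BB_ge N; omega) _ _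

lemma tv_finite (o : Ok l Λ σ N lo hi A θ) (t : τ) : {b | D.TV A θ t b}.Finite := by
  obtain ⟨j, hj⟩ := exists_int_gt (max (D.y0 t) (D.y1 t) / l)
  obtain ⟨i, hi⟩ := exists_int_lt (min (D.y0 t) (D.y1 t) / l)
  rw [div_lt_iff₀ o.hl] at hj
  rw [lt_div_iff₀ o.hl] at hi
  refine (Set.finite_Icc (i * BB N) (j * BB N)).subset fun b hb => ⟨?_, ?_⟩
  · refine ((Yw_mono (D := D) o t).lt_iff_lt.1 ?_).le
    rw [Yw_wall]; exact hi.trans hb.2.1
  · refine ((Yw_mono (D := D) o t).lt_iff_lt.1 ?_).le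
    rw [Yw_wall]; exact hb.2.2.trans hj

lemma tv_exists (o : Ok l Λ σ N lo hi A θ) {t : τ} (h : t ∈ D.Th) : ∃ b, D.TV A θ t b := by
  have hl := o.hl
  have len := D.len t h
  have e : |D.y1 t - D.y0 t| = max (D.y0 t) (D.y1 t) - min (D.y0 t) (D.y1 t) := by
    rw [max_sub_min_eq_abs]
  have f1 := Int.floor_le (min (D.y0 t) (D.y1 t) / l)
  have f2 := Int.lt_floor_add_one (min (D.y0 t) (D.y1 t) / l)
  rw [le_div_iff₀ hl] at f1
  rw [div_lt_iff₀ hl] at f2
  refine ⟨(⌊min (D.y0 t) (D.y1 t) / l⌋ + 1) * BB N, h, ?_, ?_⟩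
  · rw [Yw_wall]; push_cast; exact f2
  · rw [Yw_wall]; push_cast; linarith

lemma dir_cases (o : Ok l Λ σ N lo hi A θ) {t : τ} (h : t ∈ D.Th) :
    (D.y0 t < D.y1 t ∧ D.dir t = 1) ∨ (D.y1 t < D.y0 t ∧ D.dir t = -1) := by
  unfold dir
  rcases lt_or_gt_of_ne (y_ne o h) with r | r
  · left; exact ⟨r, if_pos r⟩
  · right; exact ⟨r, if_neg (not_lt.2 r.le)⟩

lemma last_spec (o : Ok l Λ σ N lo hi A θ) {t : τ} (h : t ∈ D.Th) :
    D.TV A θ t (D.last A θ t) ∧ ¬ D.TV A θ t (D.last A θ t + D.dir t) := by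
  refine Classical.epsilon_spec (p := fun b => D.TV A θ t b ∧ ¬ D.TV A θ t (b + D.dir t)) ?_
  obtain ⟨b, hb, hm⟩ := Set.exists_max_image _ (fun b => D.dir t * b) (tv_finite o t)
    (tv_exists o h)
  refine ⟨b, hb, fun q => ?_⟩
  have := hm _ q
  rcases dir_cases o h with ⟨-, r⟩ | ⟨-, r⟩ <;> rw [r] at this <;> omega

lemma last_between (o : Ok l Λ σ N lo hi A θ) {t : τ} (h : t ∈ D.Th) :
    (D.dir t = 1 ∧ D.y0 t < D.Yw A θ t (D.last A θ t) ∧ D.Yw A θ t (D.last A θ t) < D.y1 t ∧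
      D.y1 t ≤ D.Yw A θ t (D.last A θ t + D.dir t)) ∨
    (D.dir t = -1 ∧ D.Yw A θ t (D.last A θ t) < D.y0 t ∧ D.y1 t < D.Yw A θ t (D.last A θ t) ∧
      D.Yw A θ t (D.last A θ t + D.dir t) ≤ D.y1 t) := by
  obtain ⟨⟨-, a1, a2⟩, b⟩ := last_spec o h
  rcases dir_cases o h with ⟨q, r⟩ | ⟨q, r⟩
  · rw [min_eq_left q.le] at a1
    rw [max_eq_right q.le] at a2
    refine Or.inl ⟨r, a1, a2, not_lt.1 fun u => b ⟨h, ?_, ?_⟩⟩
    · rw [min_eq_left q.le]
      exact a1.trans (Yw_mono o t (by omega))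
    · rwa [max_eq_right q.le]
  · rw [min_eq_right q.le] at a1
    rw [max_eq_left q.le] at a2
    refine Or.inr ⟨r, a2, a1, not_lt.1 fun u => b ⟨h, ?_, ?_⟩⟩
    · rwa [min_eq_right q.le]
    · rw [max_eq_left q.le]
      exact (Yw_mono o t (by omega)).trans a2

lemma low_between (o : Ok l Λ σ N lo hi A θ) {t : τ} {b : ℤ} (h : D.TV A θ t b) :
    (D.dir t = 1 ∧ D.Yw A θ t (b - D.dir t) ≤ D.lowY A θ t b ∧ D.lowY A θ t b < D.Yw A θ t b ∧
      D.y0 t ≤ D.lowY A θ t b ∧ D.Yw A θ t b < D.y1 t) ∨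
    (D.dir t = -1 ∧ D.lowY A θ t b ≤ D.Yw A θ t (b - D.dir t) ∧ D.Yw A θ t b < D.lowY A θ t b ∧
      D.lowY A θ t b ≤ D.y0 t ∧ D.y1 t < D.Yw A θ t b) := by
  obtain ⟨ht, a1, a2⟩ := h
  unfold lowY
  rcases dir_cases o ht with ⟨q, r⟩ | ⟨q, r⟩
  · rw [min_eq_left q.le] at a1
    rw [max_eq_right q.le] at a2
    have m : D.Yw A θ t (b - D.dir t) < D.Yw A θ t b := Yw_mono o t (by omega)
    left
    split_ifs with u
    · have := u.2.1
      rw [min_eq_left q.le] at this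
      exact ⟨r, le_rfl, m, this.le, a2⟩
    · refine ⟨r, not_lt.1 fun w => u ⟨ht, ?_, ?_⟩, a1, le_rfl, a2⟩
      · rwa [min_eq_left q.le]
      · rw [max_eq_right q.le]; exact m.trans a2
  · rw [min_eq_right q.le] at a1
    rw [max_eq_left q.le] at a2
    have m : D.Yw A θ t b < D.Yw A θ t (b - D.dir t) := Yw_mono o t (by omega)
    right
    split_ifs with u
    · have := u.2.2
      rw [max_eq_left q.le] at this
      exact ⟨r, le_rfl, m, this.le, a1⟩
    · refine ⟨r, not_lt.1 fun w => u ⟨ht, ?_, ?_⟩, a2, le_rfl, a1⟩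
      · rw [min_eq_right q.le]; exact a1.trans m
      · rwa [max_eq_left q.le]

lemma ml_spec {t : τ} {j β : ℤ} (h : D.ml t j β ≠ 0) :
    D.shR (D.I t - 1, j) (D.ml t j β) ∧ lo ≤ D.ml t j β ∧ bb N (D.ml t j β) ≤ β := by
  classical
  exact Nat.findGreatest_of_ne_zero
    (P := fun X => D.shR (D.I t - 1, j) X ∧ lo ≤ X ∧ bb N X ≤ β) rfl h

lemma ml_le (t : τ) (j β : ℤ) : D.ml t j β ≤ hi := by
  classical
  exact Nat.findGreatest_le _

lemma ml_mono (t : τ) (j β : ℤ) : D.ml t j β ≤ D.ml t j (β + 1) := by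
  classical
  by_cases h : D.ml t j β = 0
  · omega
  · obtain ⟨a, b, c⟩ := ml_spec h
    exact Nat.le_findGreatest (ml_le t j β) ⟨a, b, by omega⟩

lemma ml_zero (t : τ) (j : ℤ) : D.ml t j 0 = 0 := by
  by_contra h
  obtain ⟨a, b, c⟩ := ml_spec h
  have := bb_lt N (show 0 < D.ml t j 0 by omega)
  have := bb_zero N
  have : MM N = 4 * N + 4 := rfl
  omega

lemma ml_arm {t : τ} {j : ℤ} {X : ℕ} (h : D.shR (D.I t - 1, j) X) (h1 : lo ≤ X) (h2 : X ≤ hi) :
    D.ml t j (bb N X) = X := by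
  classical
  refine Nat.findGreatest_eq_iff.2 ⟨h2, fun _ => ⟨h, h1, le_rfl⟩, fun m hm _ q => ?_⟩
  have := bb_lt N hm
  have : MM N = 4 * N + 4 := rfl
  omega

lemma ll_zero (t : τ) (j : ℤ) : D.ll t j 0 = D.P t := by
  unfold ll; rw [if_neg]; simp [ml_zero]

lemma ll_top (t : τ) (j : ℤ) : D.ll t j (BB N) = D.P t := by
  unfold ll; rw [if_neg]; simp

lemma tlab_row (t : τ) (j β : ℤ) (h0 : 0 ≤ β) (h1 : β ≤ BB N) :
    D.tlab t (j * BB N + β) = D.ll t j (if Even (D.I t - 1 + j) then BB N - β else β) := by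
  have hB := BB_ge N
  rcases eq_or_lt_of_le h1 with r | r
  · subst r
    have e : j * BB N + BB N = (j + 1) * BB N + 0 := by ring
    unfold tlab
    rw [e, row_div le_rfl (by omega), row_mod le_rfl (by omega)]
    split_ifs <;> simp [ll_zero, ll_top]
  · unfold tlab
    rw [row_div h0 r, row_mod h0 r]

lemma ll_ok (o : Ok l Λ σ N lo hi A θ) (t : τ) (j β : ℤ) : D.LabOk t j (D.ll t j β) := by
  unfold ll
  split_ifs with h
  · exact Or.inr ⟨h.1, _, (ml_le t j β).trans o.hhi.le, rfl⟩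
  · exact Or.inl rfl

lemma psi_zero (t : τ) (j : ℤ) : D.psi t j 0 = 0 := by
  have hB := BB_ge N
  unfold psi; rw [if_pos (by omega)]; simp [ml_zero]

lemma psi_top (t : τ) (j : ℤ) : D.psi t j (BB N) = 3 * D.c t := by
  unfold psi; simp

lemma psi_bd (o : Ok l Λ σ N lo hi A θ) {t : τ} (ht : t ∈ D.Th) {j : ℤ} (hj : j ∈ D.St t) (β : ℤ) :
    0 ≤ D.psi t j β ∧ D.psi t j β ≤ 3 * D.c t := by
  have c0 := D.cpos t ht
  have w := D.win t ht ⟨j, hj⟩
  unfold psi
  split_ifs with h1 h2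
  · have a : (lo : ℝ) ≤ D.ml t j β := by exact_mod_cast (ml_spec h2).2.1
    have b : (D.ml t j β : ℝ) ≤ hi := by exact_mod_cast ml_le t j β
    constructor <;> nlinarith [o.hσ]
  · constructor <;> linarith
  · constructor <;> linarith

lemma ll_step (o : Ok l Λ σ N lo hi A θ) {t : τ} (ht : t ∈ D.Th) {j : ℤ} (hj : j ∈ D.St t) {β : ℤ}
    (h1 : β < BB N) {z : ℂ} (hz : z ∈ wall l (D.I t) j) :
    ‖(D.ll t j (β + 1) - D.ll t j β).eval z‖ ≤ D.psi t j (β + 1) - D.psi t j β := by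
  have c0 := D.cpos t ht
  have w := D.win t ht ⟨j, hj⟩
  obtain ⟨s1, s2⟩ := (D.station t ht j hj).2 z hz
  have mm := ml_mono (D := D) t j β
  by_cases top : β + 1 < BB N
  · by_cases m0 : D.ml t j β = 0
    · by_cases m1 : D.ml t j (β + 1) = 0
      · simp [ll, psi, m0, m1, top, h1]
      · have a : (lo : ℝ) ≤ D.ml t j (β + 1) := by exact_mod_cast (ml_spec m1).2.1
        have := s1 _ (ml_spec m1).1
        simp only [ll, psi, m0, m1, top, h1, hj, ne_eq, not_false_eq_true, and_self, if_true,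
          not_true_eq_false, and_false, if_false]
        nlinarith [o.hσ]
    · have m1 : D.ml t j (β + 1) ≠ 0 := by omega
      have := s2 _ _ (ml_spec m0).1 (ml_spec m1).1 mm
      simp only [ll, psi, m0, m1, top, h1, hj, ne_eq, not_false_eq_true, and_self, if_true]
      linarith
  · by_cases m0 : D.ml t j β = 0
    · simp only [ll, psi, m0, top, h1, hj, ne_eq, not_true_eq_false, and_false, if_false,
        false_and, if_true, sub_self, eval_zero, norm_zero]
      linarith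
    · have := s1 _ (ml_spec m0).1
      have b : (D.ml t j β : ℝ) ≤ hi := by exact_mod_cast ml_le t j β
      simp only [ll, psi, m0, top, h1, hj, ne_eq, not_false_eq_true, and_self, if_true, false_and,
        and_false, if_false]
      rw [← norm_neg, ← eval_neg, neg_sub]
      nlinarith [o.hσ]

lemma Psi_row (t : τ) (j β : ℤ) (h0 : 0 ≤ β) (h1 : β ≤ BB N) :
    D.Psi t (j * BB N + β) = 3 * D.c t * ((D.St t).filter (· < j)).card + D.psi' t j β := by
  have hB := BB_ge N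
  rcases eq_or_lt_of_le h1 with r | r
  · subst r
    have e : j * BB N + BB N = (j + 1) * BB N + 0 := by ring
    unfold Psi
    rw [e, row_div le_rfl (by omega), row_mod le_rfl (by omega)]
    have z : D.psi' t (j + 1) 0 = 0 := by
      unfold psi'; split_ifs <;> simp [psi_zero, psi_top]
    rw [z]
    by_cases hj : j ∈ D.St t
    · have u : D.psi' t j (BB N) = 3 * D.c t := by
        unfold psi'; rw [if_pos hj]; split_ifs <;> simp [psi_zero, psi_top]
      have v : (D.St t).filter (· < j + 1) = insert j ((D.St t).filter (· < j)) := by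
        ext x
        simp only [Finset.mem_filter, Finset.mem_insert]
        constructor
        · rintro ⟨a, b⟩
          rcases eq_or_lt_of_le (show x ≤ j by omega) with c | c
          · exact Or.inl c
          · exact Or.inr ⟨a, c⟩
        · rintro (rfl | ⟨a, b⟩)
          · exact ⟨hj, by omega⟩
          · exact ⟨a, by omega⟩
      rw [u, v, Finset.card_insert_of_notMem (by simp)]
      push_cast; ring
    · have u : D.psi' t j (BB N) = 0 := by unfold psi'; rw [if_neg hj]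
      have v : (D.St t).filter (· < j + 1) = (D.St t).filter (· < j) := by
        ext x
        simp only [Finset.mem_filter]
        constructor
        · rintro ⟨a, b⟩
          have : x ≠ j := fun e => hj (e ▸ a)
          exact ⟨a, by omega⟩
        · rintro ⟨a, b⟩
          exact ⟨a, by omega⟩
      rw [u, v]
  · unfold Psi
    rw [row_div h0 r, row_mod h0 r]

lemma Psi_bd (o : Ok l Λ σ N lo hi A θ) {t : τ} (ht : t ∈ D.Th) (b : ℤ) :
    0 ≤ D.Psi t b ∧ D.Psi t b ≤ 3 * D.c t * (D.St t).card := by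
  have c0 := D.cpos t ht
  unfold Psi
  generalize b / BB N = j
  generalize b % BB N = β
  by_cases hj : j ∈ D.St t
  · have u : 0 ≤ D.psi' t j β ∧ D.psi' t j β ≤ 3 * D.c t := by
      unfold psi'; rw [if_pos hj]
      have := psi_bd o ht hj β
      have := psi_bd o ht hj (BB N - β)
      split_ifs <;> constructor <;> linarith
    have v : ((D.St t).filter (· < j)).card + 1 ≤ (D.St t).card :=
      Finset.card_lt_card (Finset.filter_ssubset.2 ⟨j, hj, lt_irrefl j⟩)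
    have v' : (((D.St t).filter (· < j)).card : ℝ) + 1 ≤ (D.St t).card := by exact_mod_cast v
    constructor
    · have := u.1; positivity
    · nlinarith [u.2]
  · have u : D.psi' t j β = 0 := by unfold psi'; rw [if_neg hj]
    have v' : (((D.St t).filter (· < j)).card : ℝ) ≤ (D.St t).card := by
      exact_mod_cast Finset.card_filter_le _ _
    rw [u]
    constructor
    · positivity
    · nlinarith

lemma Psd_bd (o : Ok l Λ σ N lo hi A θ) {t : τ} (ht : t ∈ D.Th) (b : ℤ) :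
    0 ≤ D.Psd t b ∧ D.Psd t b ≤ 3 * D.c t * (D.St t).card := by
  have := Psi_bd o ht b
  unfold Psd
  split_ifs <;> constructor <;> linarith [this.1, this.2]

lemma unit_row (o : Ok l Λ σ N lo hi A θ) {t : τ} (ht : t ∈ D.Th) (b : ℤ) :
    ∃ j : ℤ, j * l ≤ D.Yw A θ t b ∧ D.Yw A θ t (b + 1) ≤ (j + 1) * l ∧
      D.LabOk t j (D.tlab t b) ∧ D.LabOk t j (D.tlab t (b + 1)) ∧
      ∀ z ∈ wall l (D.I t) j,
        ‖(D.tlab t (b + 1) - D.tlab t b).eval z‖ ≤ D.Psi t (b + 1) - D.Psi t b := by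
  have hB := BB_ge N
  obtain ⟨j, β, h0, h1, rfl⟩ := exists_row (show 0 < BB N by omega) b
  refine ⟨j, (Y_row o _ j β h0 h1.le).1, ?_, ?_, ?_, fun z hz => ?_⟩
  · rw [add_assoc]; exact (Y_row o _ j (β + 1) (by omega) (by omega)).2
  · rw [tlab_row t j β h0 h1.le]; exact ll_ok o _ _ _
  · rw [add_assoc, tlab_row t j (β + 1) (by omega) (by omega)]; exact ll_ok o _ _ _
  · rw [add_assoc, tlab_row t j (β + 1) (by omega) (by omega), tlab_row t j β h0 h1.le,
      Psi_row t j (β + 1) (by omega) (by omega), Psi_row t j β h0 h1.le]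
    by_cases hj : j ∈ D.St t
    · simp only [psi', hj, if_true]
      split_ifs with e
      · have := ll_step o ht hj (β := BB N - (β + 1)) (by omega) hz
        rw [show BB N - (β + 1) + 1 = BB N - β by ring] at this
        rw [← norm_neg, ← eval_neg, neg_sub]
        linarith
      · have := ll_step o ht hj (β := β) h1 hz
        linarith
    · simp [psi', ll, hj]

lemma dir_row (o : Ok l Λ σ N lo hi A θ) {t : τ} (ht : t ∈ D.Th) (b : ℤ) :
    ∃ j : ℤ, j * l ≤ D.Yw A θ t b ∧ D.Yw A θ t b ≤ (j + 1) * l ∧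
      j * l ≤ D.Yw A θ t (b - D.dir t) ∧ D.Yw A θ t (b - D.dir t) ≤ (j + 1) * l ∧
      D.LabOk t j (D.tlab t b) ∧ D.LabOk t j (D.tlab t (b - D.dir t)) ∧
      ∀ z ∈ wall l (D.I t) j,
        ‖(D.tlab t b - D.tlab t (b - D.dir t)).eval z‖ ≤ D.Psd t b - D.Psd t (b - D.dir t) := by
  rcases dir_cases o ht with ⟨q, r⟩ | ⟨q, r⟩
  · obtain ⟨j, a1, a2, a3, a4, a5⟩ := unit_row o ht (b - 1)
    rw [sub_add_cancel] at a2 a4 a5
    have m : D.Yw A θ t (b - 1) < D.Yw A θ t b := Yw_mono o t (by omega)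
    rw [r]
    refine ⟨j, by linarith, a2, a1, by linarith, a4, a3, fun z hz => ?_⟩
    simp only [Psd, q, if_true]
    exact a5 z hz
  · obtain ⟨j, a1, a2, a3, a4, a5⟩ := unit_row o ht b
    have m : D.Yw A θ t b < D.Yw A θ t (b + 1) := Yw_mono o t (by omega)
    rw [r, sub_neg_eq_add]
    refine ⟨j, a1, by linarith, by linarith, a2, a3, a4, fun z hz => ?_⟩
    simp only [Psd, not_lt.2 q.le, if_false]
    rw [← norm_neg, ← eval_neg, neg_sub]
    linarith [a5 z hz]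

lemma labOk_old (o : Ok l Λ σ N lo hi A θ) {t : τ} (ht : t ∈ D.Th) {j : ℤ} {L : ℂ[X]}
    (h : D.LabOk t j L) {z : ℂ} (hz : z ∈ wall l (D.I t) j) (hw : z ∈ closure s.W) :
    L = D.P t := by
  rcases h with h | ⟨h, -⟩
  · exact h
  · exact (Set.disjoint_left.1 (D.act _ (D.station t ht j h).1) (wall_sub l o.hl.le _ _ hz) hw).elim

lemma labOk_near (o : Ok l Λ σ N lo hi A θ) {t : τ} (ht : t ∈ D.Th) {j : ℤ} {L : ℂ[X]}
    (h : D.LabOk t j L) {z : ℂ} (hz : z ∈ wall l (D.I t) j)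
    (hs : z ∈ segment ℝ (⟨D.I t * l, D.y0 t⟩ : ℂ) ⟨D.I t * l, D.y1 t⟩) {i : ℕ} (hi : i ≤ n) :
    ‖jet L i z - s.F i z‖ ≤ κ / 2 := by
  rcases h with rfl | ⟨h, m, hm, rfl⟩
  · exact D.near t ht i hi z hs
  · exact D.lab _ (D.station t ht j h).1 (m, N - m) (by simp only; omega) i hi z
      (wall_sub l o.hl.le _ _ hz)

/-- The label of a tree vertex on a thread is the thread label. -/
lemma cv_tv (o : Ok l Λ σ N lo hi A θ) {Q : ℤ × ℤ} {ν : ℕ × ℕ} {α β d : ℤ} {t : τ} {b : ℤ}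
    (h : D.CV A Q ν α β d) (h' : D.TV A θ t b) (e : gl A (BB N) Q α β = (D.I t * A, b)) :
    D.T Q ν = D.tlab t b ∧ d = 0 := by
  obtain ⟨j, X, a1, a2, a3, a4⟩ := cv_wall o h (congrArg Prod.fst e)
  have r := D.hR _ _ _ a1
  have bf := bb_facts N X r.2.2.2.1.le
  have eb : b = j * BB N + (if Even (D.I t - 1 + j) then BB N - bb N X else bb N X) :=
    (congrArg Prod.snd (e.symm.trans a2) : _)
  have y := Y_row (D := D) o (D.I t * A) j
    (if Even (D.I t - 1 + j) then BB N - bb N X else bb N X) (by split_ifs <;> omega)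
    (by split_ifs <;> omega)
  rw [← eb] at y
  obtain ⟨c1, c2, c3⟩ := D.cross t h'.1 j X a1 ⟨_, by
    rw [ps_wall o]; exact ⟨rfl, y.1, y.2⟩, tv_mem o h'⟩
  refine ⟨?_, a4⟩
  rw [a3, eb, tlab_row t j _ (by split_ifs <;> omega) (by split_ifs <;> omega)]
  have : (if Even (D.I t - 1 + j) then
      BB N - (if Even (D.I t - 1 + j) then BB N - bb N X else bb N X)
      else (if Even (D.I t - 1 + j) then BB N - bb N X else bb N X)) = bb N X := by
    split_ifs <;> omega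
  rw [this]
  unfold ll
  rw [ml_arm a1 c2 c3, if_pos ⟨c1, by omega, by omega⟩]

end GridData

end Pool.Agent.MP_d32a63_an.H23
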